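import Pool.Agent.Work.MP_2183d4_lc_66.FINAL

/-! # MP_2183d4_lc: additive bound, basic uncrossing lemmas -/

set_option autoImplicit false

namespace Pool.Agent.Work.MP_2183d4_add

open Finset Pool.Agent.Work.MP_2183d4_lc_66

section
variable {V E : Type} [Fintype V] [DecidableEq V] [Fintype E]

/-- `d_H(X)` plus the number of half-edges at `X`. -/
noncomputable def F (H : E → Finset V) (m : V → ℕ) (X : Finset V) : ℕ := cut H X + ∑ v ∈ X, m v

/-- Properties of the requirement function on sets. -/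
structure Rq (R : Finset V → ℕ) : Prop where
  empty : R ∅ = 0
  compl : ∀ X, R Xᶜ = R X
  union : ∀ A B, R (A ∪ B) ≤ max (R A) (R B)

theorem mt_union (m : V → ℕ) (X Y : Finset V) :
    ∑ v ∈ X ∩ Y, m v + ∑ v ∈ X ∪ Y, m v = ∑ v ∈ X, m v + ∑ v ∈ Y, m v := by
  have := Finset.sum_union_inter (s₁ := X) (s₂ := Y) (f := m)
  omega

theorem mt_left (m : V → ℕ) (X Y : Finset V) :
    ∑ v ∈ X ∩ Y, m v + ∑ v ∈ X \ Y, m v = ∑ v ∈ X, m v :=
  Finset.sum_inter_add_sum_sdiff X Y m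

theorem mt_right (m : V → ℕ) (X Y : Finset V) :
    ∑ v ∈ X ∩ Y, m v + ∑ v ∈ Y \ X, m v = ∑ v ∈ Y, m v := by
  rw [inter_comm]
  exact Finset.sum_inter_add_sum_sdiff Y X m

theorem F_sub (H : E → Finset V) (m : V → ℕ) (X Y : Finset V) :
    F H m (X ∩ Y) + F H m (X ∪ Y) ≤ F H m X + F H m Y := by
  have h1 := DEG.cut_inter_union H X Y
  have h2 := mt_union m X Y
  unfold F
  omega

theorem F_posi (H : E → Finset V) (m : V → ℕ) (X Y : Finset V) :
    F H m (X \ Y) + F H m (Y \ X) + 2 * ∑ v ∈ X ∩ Y, m v ≤ F H m X + F H m Y := by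
  have h1 := DEG.cut_sdiff H X Y
  have h2 := mt_left m X Y
  have h3 := mt_right m X Y
  unfold F
  omega

theorem Rq.tri {R : Finset V → ℕ} (hR : Rq R) {A C : Finset V} (h : A ⊆ C) :
    R A ≤ max (R (C \ A)) (R C) := by
  have h1 := hR.union (C \ A) Cᶜ
  rw [hR.compl C] at h1
  have h2 : (C \ A) ∪ Cᶜ = Aᶜ := by
    ext v
    simp only [mem_union, mem_sdiff, mem_compl]
    by_cases hv : v ∈ A
    · simp [hv, h hv]
    · by_cases hc : v ∈ C <;> simp [hv, hc]
  rw [h2, hR.compl A] at h1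
  exact h1

theorem Rq.un {R : Finset V → ℕ} (hR : Rq R) {A C : Finset V} (h : A ⊆ C) :
    R C ≤ max (R A) (R (C \ A)) := by
  have h1 := hR.union A (C \ A)
  rwa [union_sdiff_of_subset h] at h1

theorem Rq.skew {R : Finset V → ℕ} (hR : Rq R) (X Y : Finset V) :
    R X + R Y ≤ R (X ∩ Y) + R (X ∪ Y) ∨ R X + R Y ≤ R (X \ Y) + R (Y \ X) := by
  have h1 := hR.un (inter_subset_left : X ∩ Y ⊆ X)
  have h2 := hR.un (inter_subset_right : X ∩ Y ⊆ Y)
  have h3 := hR.tri (subset_union_left : X ⊆ X ∪ Y)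
  have h4 := hR.tri (subset_union_right : Y ⊆ X ∪ Y)
  rw [sdiff_inter_self_left] at h1
  rw [sdiff_inter_self_right] at h2
  have e1 : (X ∪ Y) \ X = Y \ X := union_sdiff_left X Y
  have e2 : (X ∪ Y) \ Y = X \ Y := union_sdiff_right X Y
  rw [e1] at h3
  rw [e2] at h4
  omega

end

end Pool.Agent.Work.MP_2183d4_add
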