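import Pool.Agent.Work.MP_2183d4_add.Min

/-! # MP_2183d4_lc: stuck instances with singleton tight sets -/

set_option autoImplicit false

namespace Pool.Agent.Work.MP_2183d4_add

open Finset Pool.Agent.Work.MP_2183d4_lc_66

section
variable {V E : Type} [Fintype V] [DecidableEq V] [Fintype E]
variable {H : E → Finset V} {m : V → ℕ} {R : Finset V → ℕ}

theorem le_mt {X : Finset V} {x : V} (hx : x ∈ X) : m x ≤ ∑ v ∈ X, m v :=
  Finset.single_le_sum (f := m) (fun _ _ => Nat.zero_le _) hx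

theorem le_mt2 {X : Finset V} {x y : V} (hx : x ∈ X) (hy : y ∈ X) (hxy : x ≠ y) :
    m x + m y ≤ ∑ v ∈ X, m v := by
  have h1 : ({x, y} : Finset V) ⊆ X := by
    intro w hw
    rw [mem_insert, mem_singleton] at hw
    rcases hw with rfl | rfl
    · exact hx
    · exact hy
  have h2 : ∑ w ∈ ({x, y} : Finset V), m w ≤ ∑ w ∈ X, m w := Finset.sum_le_sum_of_subset h1
  rwa [Finset.sum_pair hxy] at h2

theorem le_mt3 {X : Finset V} {x y z : V} (hx : x ∈ X) (hy : y ∈ X) (hz : z ∈ X) (hxy : x ≠ y)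
    (hxz : x ≠ z) (hyz : y ≠ z) : m x + m y + m z ≤ ∑ v ∈ X, m v := by
  have h1 : ({x, y, z} : Finset V) ⊆ X := by
    intro w hw
    rw [mem_insert, mem_insert, mem_singleton] at hw
    rcases hw with rfl | rfl | rfl
    · exact hx
    · exact hy
    · exact hz
  have h2 : ∑ w ∈ ({x, y, z} : Finset V), m w ≤ ∑ w ∈ X, m w := Finset.sum_le_sum_of_subset h1
  rw [Finset.sum_insert (by simp [hxy, hxz]), Finset.sum_pair hyz] at h2
  omega

theorem exists_pos {X : Finset V} (h : 1 ≤ ∑ v ∈ X, m v) : ∃ x ∈ X, 0 < m x := by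
  by_contra hcon
  push Not at hcon
  have : ∑ v ∈ X, m v = 0 := Finset.sum_eq_zero fun v hv => by have := hcon v hv; omega
  omega

/-- `S` minimizes `F` among the sets with some but not all half-edges. -/
structure Mi (H : E → Finset V) (m : V → ℕ) (S : Finset V) : Prop where
  pos : 1 ≤ ∑ v ∈ S, m v
  lt : ∑ v ∈ S, m v < ∑ v, m v
  min : ∀ X : Finset V, 1 ≤ ∑ v ∈ X, m v → ∑ v ∈ X, m v < ∑ v, m v → F H m S ≤ F H m X

theorem K1 (h : Stuck H m R) {S L : Finset V} (hS : Mi H m S) (hL : MD H m R L) {t x : V}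
    (ht : t ∈ S) (htL : t ∈ L) (hmt : 0 < m t) (hx : x ∈ L) (hxS : x ∉ S) (hmx : 0 < m x) :
    S ⊆ L := by
  by_contra hns
  have h1 := F_sub H m L S
  have h2 := mt_left m L S
  have h3 := mt_right m L S
  have h4 : m t ≤ ∑ v ∈ L ∩ S, m v := le_mt (mem_inter.2 ⟨htL, ht⟩)
  have h5 : m x ≤ ∑ v ∈ L \ S, m v := le_mt (mem_sdiff.2 ⟨hx, hxS⟩)
  have h6 : ∑ v ∈ L, m v ≤ ∑ v, m v := Finset.sum_le_sum_of_subset (subset_univ _)
  have hlt := hS.lt
  have h7 := hS.min (L ∩ S) (by omega) (by omega)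
  have h8 := hL.2 (L ∪ S) (Finset.ssubset_iff_subset_ne.2 ⟨subset_union_left, fun he => hns (by
    rw [he]
    exact subset_union_right)⟩)
  have h9 := h.rq.tri (subset_union_left : L ⊆ L ∪ S)
  rw [union_sdiff_left] at h9
  have h10 := F_posi H m L S
  have h11 := h.feas (S \ L)
  have h12 := hS.min (L \ S) (by omega) (by omega)
  have h13 := hL.1
  omega

theorem K2 (h : Stuck H m R) (hT : ∀ X : Finset V, X.Nonempty → F H m X ≤ R X → ∃ v, X = {v})
    (hm1 : ∀ v, m v ≤ 1) {S : Finset V} (hS : Mi H m S) : ∑ v ∈ S, m v = 1 := by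
  obtain ⟨j, hj, hmj⟩ := exists_pos hS.pos
  have hc : 1 ≤ ∑ v ∈ Sᶜ, m v := by
    have h1 := Finset.sum_add_sum_compl S m
    have h2 := hS.lt
    omega
  obtain ⟨x, hx, hmx⟩ := exists_pos hc
  rw [mem_compl] at hx
  have hjx : j ≠ x := fun he => hx (he ▸ hj)
  obtain ⟨X, hX1, hX2, hX3⟩ := h.pair j x hjx hmj hmx
  obtain ⟨L, hXL, hL⟩ := exists_MD hX3
  have hSL := K1 h hS hL hj (hXL hX1) hmj (hXL hX2) hx hmx
  obtain ⟨y, hy, hmy⟩ := h.out L hL.1
  have hyS : y ∉ S := fun h' => hy (hSL h')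
  have hjy : j ≠ y := fun he => hy (he ▸ hSL hj)
  obtain ⟨Y, hY1, hY2, hY3⟩ := h.pair j y hjy hmj hmy
  obtain ⟨L', hYL, hL'⟩ := exists_MD hY3
  have hSL' := K1 h hS hL' hj (hYL hY1) hmj (hYL hY2) hyS hmy
  have hne : L ≠ L' := fun he => hy (he ▸ hYL hY2)
  have hp := hS.pos
  rcases pairMD h hL hL' hne (hSL hj) (hSL' hj) hmj with h1 | ⟨_, _, h1, _⟩
  · obtain ⟨w, hw⟩ := hT _ ⟨j, mem_inter.2 ⟨hSL hj, hSL' hj⟩⟩ h1
    have h2 : S ⊆ {w} := by
      rw [← hw]
      exact subset_inter hSL hSL'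
    have h3 : ∑ v ∈ S, m v ≤ ∑ v ∈ ({w} : Finset V), m v := Finset.sum_le_sum_of_subset h2
    rw [Finset.sum_singleton] at h3
    have := hm1 w
    omega
  · have h3 : ∑ v ∈ S, m v ≤ ∑ v ∈ L ∩ L', m v :=
      Finset.sum_le_sum_of_subset (subset_inter hSL hSL')
    omega

theorem minimal_case (h : Stuck H m R)
    (hT : ∀ X : Finset V, X.Nonempty → F H m X ≤ R X → ∃ v, X = {v}) :
    ∃ e, ∑ v, m v ≤ (H e).card := by
  classical
  have hm1 := mult h hT
  have hbig := h.big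
  obtain ⟨v0, _, hv0⟩ := exists_pos (m := m) (X := univ) (by omega)
  -- the minimizer
  obtain ⟨S, hSm, hSmin⟩ := Finset.exists_min_image
    ((univ : Finset (Finset V)).filter fun X => 1 ≤ ∑ v ∈ X, m v ∧ ∑ v ∈ X, m v < ∑ v, m v)
    (fun X => F H m X) ⟨{v0}, by
      rw [mem_filter]
      refine ⟨mem_univ _, ?_, ?_⟩
      · rw [Finset.sum_singleton]; exact hv0
      · rw [Finset.sum_singleton]
        have := hm1 v0
        omega⟩
  rw [mem_filter] at hSm
  have hS : Mi H m S := ⟨hSm.2.1, hSm.2.2, fun X h1 h2 => hSmin X (mem_filter.2 ⟨mem_univ _, h1, h2⟩)⟩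
  have hS1 := K2 h hT hm1 hS
  obtain ⟨j, hjS, hmj⟩ := exists_pos hS.pos
  have hmj1 : m j = 1 := by
    have := hm1 j
    omega
  set T : Finset V := univ.filter fun x => x ≠ j ∧ 0 < m x with hTdef
  have memT : ∀ x, x ∈ T ↔ (x ≠ j ∧ 0 < m x) := by
    intro x
    rw [hTdef, mem_filter]
    simp
  have hjT : j ∉ T := fun h' => ((memT j).1 h').1 rfl
  have hTc : ∑ v, m v = T.card + 1 := by
    have h1 : ∑ v, m v = ∑ v ∈ insert j T, m v := by
      symm
      apply Finset.sum_subset (subset_univ _)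
      intro v _ hv
      rw [mem_insert, not_or, memT, not_and] at hv
      by_contra hne
      exact hv.2 hv.1 (by omega)
    rw [h1, Finset.sum_insert hjT]
    have h2 : ∑ v ∈ T, m v = ∑ v ∈ T, 1 := by
      apply Finset.sum_congr rfl
      intro v hv
      have h3 := ((memT v).1 hv).2
      have h4 := hm1 v
      omega
    rw [h2, Finset.sum_const, smul_eq_mul, mul_one]
    omega
  have hTcard : 3 ≤ T.card := by omega
  have hTS : ∀ x ∈ T, x ∉ S := by
    intro x hx hxS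
    have h1 := (memT x).1 hx
    have h2 := le_mt2 (m := m) hjS hxS (Ne.symm h1.1)
    omega
  have hLex : ∀ x ∈ T, ∃ L, MD H m R L ∧ j ∈ L ∧ x ∈ L := by
    intro x hx
    obtain ⟨h1, h2⟩ := (memT x).1 hx
    obtain ⟨X, hX1, hX2, hX3⟩ := h.pair j x (Ne.symm h1) hmj h2
    obtain ⟨L, hXL, hL⟩ := exists_MD hX3
    exact ⟨L, hL, hXL hX1, hXL hX2⟩
  choose! L hL using hLex
  have hSL : ∀ x ∈ T, S ⊆ L x := by
    intro x hx
    obtain ⟨h1, h2, h3⟩ := hL x hx
    exact K1 h hS h1 hjS h2 hmj h3 (hTS x hx) ((memT x).1 hx).2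
  -- facts on petals when S = {j}
  have hmL : ∀ x ∈ T, ∑ v ∈ L x, m v = ∑ v ∈ L x \ {j}, m v + 1 := by
    intro x hx
    have h1 := mt_left m (L x) {j}
    rw [inter_singleton_of_mem (hL x hx).2.1, Finset.sum_singleton] at h1
    omega
  have hmx : ∀ x ∈ T, 1 ≤ ∑ v ∈ L x \ {j}, m v := by
    intro x hx
    have h1 := (memT x).1 hx
    have h2 : m x ≤ ∑ v ∈ L x \ {j}, m v :=
      le_mt (mem_sdiff.2 ⟨(hL x hx).2.2, by simpa using h1.1⟩)
    omega
  have hmlt : ∀ x ∈ T, ∑ v ∈ L x \ {j}, m v < ∑ v, m v := by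
    intro x hx
    have h1 : ∑ v ∈ L x, m v ≤ ∑ v, m v := Finset.sum_le_sum_of_subset (subset_univ _)
    have h2 := hmL x hx
    omega
  have petal : S = {j} → ∀ x ∈ T, F H m (L x) ≤ F H m (L x \ {j}) + 1 := by
    intro hSj x hx
    have h1 := h.rq.un (singleton_subset_iff.2 (hL x hx).2.1)
    have h2 := h.feas {j}
    have h3 := h.feas (L x \ {j})
    have h4 := hS.min _ (hmx x hx) (hmlt x hx)
    rw [hSj] at h4
    have h5 := (hL x hx).1.1
    omega
  have hLne : ∀ x ∈ T, ∀ y, y ∉ L x → y ∈ T → L x ≠ L y := by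
    intro x _ y hy hyT he
    exact hy (he ▸ (hL y hyT).2.2)
  have alt1 : ∀ x ∈ T, ∀ y ∈ T, F H m (L x ∩ L y) ≤ R (L x ∩ L y) →
      L x ∩ L y = {j} ∧ S = {j} := by
    intro x hx y hy h1
    have hjI := mem_inter.2 ⟨(hL x hx).2.1, (hL y hy).2.1⟩
    obtain ⟨w, hw⟩ := hT _ ⟨j, hjI⟩ h1
    have h2 : j = w := by
      rw [hw, mem_singleton] at hjI
      exact hjI
    subst h2
    refine ⟨hw, ?_⟩
    apply Finset.Subset.antisymm
    · rw [← hw]
      exact subset_inter (hSL x hx) (hSL y hy)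
    · exact singleton_subset_iff.2 hjS
  have K4 : ∀ x ∈ T, ∑ v ∈ L x, m v = 2 := by
    intro x hx
    have g1 := hmL x hx
    have g2 := hmx x hx
    suffices hh : ∑ v ∈ L x \ {j}, m v ≤ 1 by omega
    obtain ⟨y, hy, hmy⟩ := h.out (L x) (hL x hx).1.1
    have hyT : y ∈ T := (memT y).2 ⟨fun he => hy (he ▸ (hL x hx).2.1), hmy⟩
    have hne := hLne x hx y hy hyT
    rcases pairMD h (hL x hx).1 (hL y hyT).1 hne (hL x hx).2.1 (hL y hyT).2.1 hmj with
      h1 | ⟨h1, _, h2, _⟩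
    · obtain ⟨h3, hSj⟩ := alt1 x hx y hyT h1
      have h4 := F_posi H m (L x) (L y)
      have e1 : L x \ L y = L x \ {j} := by rw [← h3, sdiff_inter_self_left]
      have e2 : L y \ L x = L y \ {j} := by rw [← h3, inter_comm, sdiff_inter_self_left]
      rw [e1, e2, h3, Finset.sum_singleton, hmj1] at h4
      have h5 := petal hSj x hx
      have h6 := petal hSj y hyT
      have h7 := (hL x hx).1.1
      have h8 := h.rq.un (singleton_subset_iff.2 (hL x hx).2.1)
      have h9 := h.feas {j}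
      by_cases hc : F H m {j} < R (L x)
      · obtain ⟨w, hw⟩ := hT (L x \ {j}) (by
          obtain ⟨z, hz, _⟩ := exists_pos g2
          exact ⟨z, hz⟩) (by omega)
        rw [hw, Finset.sum_singleton]
        exact hm1 w
      · have h10 : F H m (L x \ {j}) ≤ F H m S := by
          rw [hSj]
          omega
        have h11 : Mi H m (L x \ {j}) :=
          ⟨hmx x hx, hmlt x hx, fun X hX1 hX2 => h10.trans (hS.min X hX1 hX2)⟩
        have := K2 h hT hm1 h11
        omega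
    · have h3 := mt_left m (L x) (L y)
      have h4 : (L x \ L y).Nonempty := by
        rw [Finset.nonempty_iff_ne_empty]
        intro h0
        rw [h0, Finset.sum_empty] at h3
        omega
      obtain ⟨w, hw⟩ := hT _ h4 h1
      rw [hw, Finset.sum_singleton] at h3
      have := hm1 w
      omega
  have hne : ∀ x ∈ T, ∀ y ∈ T, x ≠ y → y ∉ L x := by
    intro x hx y hy hxy hyL
    have h1 := (memT x).1 hx
    have h2 := (memT y).1 hy
    have h3 := le_mt3 (m := m) (hL x hx).2.1 (hL x hx).2.2 hyL (Ne.symm h1.1) (Ne.symm h2.1) hxy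
    have h4 := K4 x hx
    omega
  have hcutle : S = {j} → ∀ x ∈ T, cut H (L x) ≤ cut H (L x \ {j}) := by
    intro hSj x hx
    have h1 := petal hSj x hx
    have h2 := hmL x hx
    unfold F at h1
    omega
  have main : ∀ x ∈ T, ∀ y ∈ T, x ≠ y → (L x ∩ L y = {j} ∧ S = {j} ∨
      (L x \ L y = {x} ∧ L y \ L x = {y})) ∧ PM H (L x) (L y) := by
    intro x hx y hy hxy
    have hn := hLne x hx y (hne x hx y hy hxy) hy
    rcases pairMD h (hL x hx).1 (hL y hy).1 hn (hL x hx).2.1 (hL y hy).2.1 hmj with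
      h1 | ⟨h1, h2, _, h3⟩
    · obtain ⟨h3, hSj⟩ := alt1 x hx y hy h1
      refine ⟨Or.inl ⟨h3, hSj⟩, PM_of ?_⟩
      have e1 : L x \ L y = L x \ {j} := by rw [← h3, sdiff_inter_self_left]
      have e2 : L y \ L x = L y \ {j} := by rw [← h3, inter_comm, sdiff_inter_self_left]
      rw [e1, e2]
      have h4 := hcutle hSj x hx
      have h5 := hcutle hSj y hy
      omega
    · refine ⟨Or.inr ?_, PM_of h3⟩
      have m1 : x ∈ L x \ L y := mem_sdiff.2 ⟨(hL x hx).2.2, hne y hy x hx (Ne.symm hxy)⟩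
      have m2 : y ∈ L y \ L x := mem_sdiff.2 ⟨(hL y hy).2.2, hne x hx y hy hxy⟩
      obtain ⟨w, hw⟩ := hT _ ⟨x, m1⟩ h1
      obtain ⟨w', hw'⟩ := hT _ ⟨y, m2⟩ h2
      rw [hw, mem_singleton] at m1
      rw [hw', mem_singleton] at m2
      rw [hw, hw', m1, m2]
      exact ⟨rfl, rfl⟩
  rw [hTc]
  have hcutj : cut H {j} ≠ 0 := by
    intro h0
    apply h.w {j} h0
    rw [Finset.sum_singleton, hmj1]
  by_cases hall : ∀ x ∈ T, ∀ y ∈ T, x ≠ y → L x ∩ L y = {j}
  · exact sunflower L T {j} hTcard hall (fun x hx y hy hxy => (main x hx y hy hxy).2) hcutj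
  · by_cases hnone : ∀ x ∈ T, ∀ y ∈ T, x ≠ y → L x ∩ L y ≠ {j}
    · obtain ⟨x0, hx0⟩ := Finset.card_pos.1 (show 0 < T.card by omega)
      have hint : ∀ x ∈ T, ∀ y ∈ T, x ≠ y → L x ∩ L y = L x \ {x} := by
        intro x hx y hy hxy
        obtain ⟨h1, _⟩ := (main x hx y hy hxy).1.resolve_left
          (fun h' => hnone x hx y hy hxy h'.1)
        rw [← h1, sdiff_sdiff_right_self]
        rfl
      have hD : ∀ x ∈ T, L x \ {x} = L x0 \ {x0} := by
        intro x hx
        by_cases he : x = x0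
        · rw [he]
        · rw [← hint x hx x0 hx0 he, ← hint x0 hx0 x hx (Ne.symm he), inter_comm]
      refine sunflower L T (L x0 \ {x0}) hTcard ?_
        (fun x hx y hy hxy => (main x hx y hy hxy).2) ?_
      · intro x hx y hy hxy
        rw [hint x hx y hy hxy, hD x hx]
      · intro h0
        apply h.w _ h0
        have h1 := mt_left m (L x0) {x0}
        rw [inter_singleton_of_mem (hL x0 hx0).2.2, Finset.sum_singleton, K4 x0 hx0] at h1
        have h2 := ((memT x0).1 hx0).2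
        have h3 := hm1 x0
        omega
    · push Not at hall hnone
      obtain ⟨x1, hx1, y1, hy1, hxy1, hn1⟩ := hnone
      have hSj : S = {j} := by
        rcases (main x1 hx1 y1 hy1 hxy1).1 with h' | ⟨h', _⟩
        · exact h'.2
        · apply Finset.Subset.antisymm
          · rw [← hn1]
            exact subset_inter (hSL x1 hx1) (hSL y1 hy1)
          · exact singleton_subset_iff.2 hjS
      exact mixed L T j hjT (fun x hx => (hL x hx).2.1) (fun x hx => (hL x hx).2.2) hne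
        (fun x hx y hy hxy => (main x hx y hy hxy).2)
        (fun x hx y hy hxy => (main x hx y hy hxy).1.imp_left And.left)
        (hcutle hSj) ⟨x1, hx1, y1, hy1, hxy1, hn1⟩ hall hcutj

end

end Pool.Agent.Work.MP_2183d4_add
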