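import Pool.Agent.Work.MP_2183d4_add.Case

/-! # MP_2183d4_lc: contraction of tight sets; stuck instances -/

set_option autoImplicit false

namespace Pool.Agent.Work.MP_2183d4_add

open Finset Pool.Agent.Work.MP_2183d4_lc_66

section
variable {V E : Type} [Fintype V] [DecidableEq V] [Fintype E]
variable {H : E → Finset V} {m : V → ℕ} {R : Finset V → ℕ}

/-- preimage -/
def pre {V W : Type} [Fintype V] [DecidableEq W] (p : V → W) (A : Finset W) : Finset V :=
  univ.filter fun v => p v ∈ A

theorem mem_pre {V W : Type} [Fintype V] [DecidableEq W] (p : V → W) (A : Finset W) (v : V) :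
    v ∈ pre p A ↔ p v ∈ A := by
  unfold pre
  simp

variable {W : Type} [Fintype W] [DecidableEq W]

theorem cut_image (p : V → W) (A : Finset W) :
    cut (fun e => (H e).image p) A = cut H (pre p A) := by
  classical
  unfold cut
  congr 1
  ext e
  simp only [mem_filter, mem_univ, true_and, mem_image, exists_exists_and_eq_and, mem_pre]

theorem sum_fib (p : V → W) (A : Finset W) :
    ∑ w ∈ A, (∑ v ∈ univ.filter (fun v => p v = w), m v) = ∑ v ∈ pre p A, m v := by
  classical
  rw [← Finset.sum_fiberwise_of_maps_to (s := pre p A) (t := A) (g := p)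
    (fun v hv => (mem_pre p A v).1 hv)]
  apply Finset.sum_congr rfl
  intro w hw
  apply Finset.sum_congr _ (fun _ _ => rfl)
  ext v
  simp only [mem_filter, mem_univ, true_and, mem_pre]
  constructor
  · rintro rfl
    exact ⟨hw, rfl⟩
  · exact fun h => h.2

theorem F_image (p : V → W) (A : Finset W) :
    F (fun e => (H e).image p) (fun w => ∑ v ∈ univ.filter (fun v => p v = w), m v) A =
      F H m (pre p A) := by
  unfold F
  rw [cut_image, sum_fib]

theorem Rq.image (hR : Rq R) (p : V → W) : Rq fun A : Finset W => R (pre p A) := by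
  refine ⟨?_, ?_, ?_⟩
  · have : pre p ∅ = ∅ := by
      ext v
      simp [mem_pre]
    rw [this, hR.empty]
  · intro A
    have : pre p Aᶜ = (pre p A)ᶜ := by
      ext v
      simp [mem_pre]
    rw [this, hR.compl]
  · intro A B
    have : pre p (A ∪ B) = pre p A ∪ pre p B := by
      ext v
      simp [mem_pre]
    rw [this]
    exact hR.union _ _

/-- A dangerous set containing half-edges can be made not to cross a tight set. -/
theorem saturate (h : Stuck H m R) {T X : Finset V} (hT : F H m T ≤ R T)
    (hX : F H m X ≤ R X + 1) : ∃ Y, F H m Y ≤ R Y + 1 ∧ (∀ v ∈ X, 0 < m v → v ∈ Y) ∧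
      (T ⊆ Y ∨ Disjoint T Y) := by
  rcases h.rq.skew X T with hs | hs
  · refine ⟨X ∪ T, ?_, fun v hv _ => mem_union_left _ hv, Or.inl subset_union_right⟩
    have h1 := F_sub H m X T
    have h2 := h.feas (X ∩ T)
    omega
  · have h1 := F_posi H m X T
    have h2 := h.feas (X \ T)
    have h3 := h.feas (T \ X)
    refine ⟨X \ T, by omega, fun v hv hm => ?_, Or.inr disjoint_sdiff⟩
    rw [mem_sdiff]
    refine ⟨hv, fun hvT => ?_⟩
    have h4 : m v ≤ ∑ w ∈ X ∩ T, m w := le_mt (mem_inter.2 ⟨hv, hvT⟩)
    omega

open Classical in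
/-- the contraction map -/
noncomputable def ctr (T : Finset V) (v : V) : Option {v : V // v ∉ T} :=
  if h : v ∈ T then none else some ⟨v, h⟩

theorem ctr_mem {T : Finset V} {v : V} (h : v ∈ T) : ctr T v = none := by
  unfold ctr
  rw [dif_pos h]

theorem ctr_notMem {T : Finset V} {v : V} (h : v ∉ T) : ctr T v = some ⟨v, h⟩ := by
  unfold ctr
  rw [dif_neg h]

theorem ctr_inj {T : Finset V} {v w : V} (h : v ∉ T) (he : ctr T w = ctr T v) : w = v := by
  rw [ctr_notMem h] at he
  by_cases hw : w ∈ T
  · rw [ctr_mem hw] at he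
    simp at he
  · rw [ctr_notMem hw] at he
    simpa using he

theorem pre_image {T Y : Finset V} (hY : T ⊆ Y ∨ Disjoint T Y) :
    pre (ctr T) (Y.image (ctr T)) = Y := by
  classical
  ext v
  rw [mem_pre, mem_image]
  constructor
  · rintro ⟨w, hw, he⟩
    by_cases hv : v ∈ T
    · rcases hY with hY | hY
      · exact hY hv
      · rw [ctr_mem hv] at he
        have hwT : w ∉ T := fun h => (Finset.disjoint_left.1 hY) h hw
        rw [ctr_notMem hwT] at he
        simp at he
    · rwa [← ctr_inj hv he]
  · intro hv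
    exact ⟨v, hv, rfl⟩

theorem card_ctr {T : Finset V} (hT : 2 ≤ T.card) :
    Fintype.card (Option {v : V // v ∉ T}) < Fintype.card V := by
  rw [Fintype.card_option, Fintype.card_subtype_compl (fun v => v ∈ T)]
  have h1 : Fintype.card {v : V // v ∈ T} = T.card := Fintype.card_coe T
  have h2 : T.card ≤ Fintype.card V := Finset.card_le_univ T
  rw [h1]
  omega

theorem Stuck.contract (h : Stuck H m R) {T : Finset V} (hT : F H m T ≤ R T) (hTn : T.Nonempty) :
    Stuck (fun e => (H e).image (ctr T))
      (fun w => ∑ v ∈ univ.filter (fun v => ctr T v = w), m v) (fun A => R (pre (ctr T) A)) := by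
  classical
  have tok : ∀ w, 0 < ∑ v ∈ univ.filter (fun v => ctr T v = w), m v → ∃ v, ctr T v = w ∧ 0 < m v := by
    intro w hw
    obtain ⟨v, hv, hmv⟩ := exists_pos hw
    exact ⟨v, (mem_filter.1 hv).2, hmv⟩
  refine ⟨h.rq.image _, ?_, ?_, ?_, ?_, ?_⟩
  · intro A
    rw [F_image]
    exact h.feas _
  · intro A hA
    rw [cut_image] at hA
    rw [sum_fib]
    exact h.w _ hA
  · rw [sum_fib]
    have : pre (ctr T) univ = univ := by
      ext v
      simp [mem_pre]
    rw [this]
    exact h.big
  · intro u v huv hu hv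
    obtain ⟨a, ha, hma⟩ := tok u hu
    obtain ⟨b, hb, hmb⟩ := tok v hv
    have hab : a ≠ b := by
      rintro rfl
      exact huv (ha.symm.trans hb)
    obtain ⟨X, h1, h2, h3⟩ := h.pair a b hab hma hmb
    obtain ⟨Y, hY, hYX, hYT⟩ := saturate h hT h3
    refine ⟨Y.image (ctr T), ?_, ?_, ?_⟩
    · rw [← ha]
      exact mem_image_of_mem _ (hYX a h1 hma)
    · rw [← hb]
      exact mem_image_of_mem _ (hYX b h2 hmb)
    · rw [F_image, pre_image hYT]
      exact hY
  · intro u hu
    obtain ⟨a, ha, hma⟩ := tok u (by omega)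
    by_cases haT : a ∈ T
    · refine ⟨T.image (ctr T), ?_, ?_⟩
      · rw [← ha]
        exact mem_image_of_mem _ haT
      · rw [F_image, pre_image (Or.inl (subset_refl T))]
        omega
    · have h1 : univ.filter (fun v => ctr T v = u) = {a} := by
        ext v
        rw [mem_filter, mem_singleton]
        constructor
        · rintro ⟨_, hv⟩
          exact ctr_inj haT (hv.trans ha.symm)
        · rintro rfl
          exact ⟨mem_univ _, ha⟩
      rw [h1, Finset.sum_singleton] at hu
      obtain ⟨X, h2, h3⟩ := h.two a hu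
      obtain ⟨Y, hY, hYX, hYT⟩ := saturate h hT h3
      refine ⟨Y.image (ctr T), ?_, ?_⟩
      · rw [← ha]
        exact mem_image_of_mem _ (hYX a h2 hma)
      · rw [F_image, pre_image hYT]
        exact hY

end

/-- In a stuck instance some hyperedge has at least as many vertices as there are half-edges. -/
theorem stuck_bound (n : ℕ) : ∀ (V E : Type) [Fintype V] [DecidableEq V] [Fintype E]
    (H : E → Finset V) (m : V → ℕ) (R : Finset V → ℕ), Fintype.card V = n → Stuck H m R →
    ∃ e, ∑ v, m v ≤ (H e).card := by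
  classical
  induction n using Nat.strong_induction_on with
  | _ n ih =>
    intro V E _ _ _ H m R hn h
    by_cases hT : ∀ X : Finset V, X.Nonempty → F H m X ≤ R X → ∃ v, X = {v}
    · exact minimal_case h hT
    · push Not at hT
      obtain ⟨T, hTn, hTt, hT1⟩ := hT
      have hcard : 2 ≤ T.card := by
        by_contra hcon
        have h1 := Finset.card_pos.2 hTn
        obtain ⟨v, hv⟩ := Finset.card_eq_one.1 (show T.card = 1 by omega)
        exact hT1 v hv
      obtain ⟨e, he⟩ := ih _ (by rw [← hn]; exact card_ctr hcard) _ E _ _ _ rfl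
        (h.contract hTt hTn)
      refine ⟨e, ?_⟩
      rw [sum_fib] at he
      have : pre (ctr T) univ = univ := by
        ext v
        simp [mem_pre]
      rw [this] at he
      exact he.trans Finset.card_image_le

end Pool.Agent.Work.MP_2183d4_add
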