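import Pool.Agent.Work.MP_2183d4_add.Mult

/-! # MP_2183d4_lc: a stuck instance with singleton tight sets has a hyperedge of size at least
the number of half-edges -/

set_option autoImplicit false

namespace Pool.Agent.Work.MP_2183d4_add

open Finset Pool.Agent.Work.MP_2183d4_lc_66

section
variable {V E : Type} [Fintype V] [DecidableEq V] [Fintype E]
variable {H : E → Finset V} {m : V → ℕ} {R : Finset V → ℕ}

/-- If the posimodular inequality is tight, a hyperedge meeting `X ∩ Y` and the complement of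
`X ∪ Y` meets `X \ Y`. -/
theorem bad_aux (H : E → Finset V) (X Y : Finset V)
    (h : cut H X + cut H Y ≤ cut H (X \ Y) + cut H (Y \ X)) (e : E)
    (h1 : ∃ v ∈ H e, v ∈ X ∩ Y) (h2 : ∃ v ∈ H e, v ∉ X ∪ Y) : ∃ v ∈ H e, v ∈ X \ Y := by
  classical
  by_contra hcon
  push Not at hcon
  simp only [DEG.cut_eq, ← Finset.sum_add_distrib] at h
  have hlt : ∑ e, (DEG.ind (H e) (X \ Y) + DEG.ind (H e) (Y \ X)) <
      ∑ e, (DEG.ind (H e) X + DEG.ind (H e) Y) := by
    apply Finset.sum_lt_sum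
    · intro e _
      exact (DEG.ind_sub (H e) X Y).2
    · refine ⟨e, mem_univ _, ?_⟩
      obtain ⟨a, ha, haI⟩ := h1
      obtain ⟨b, hb, hbU⟩ := h2
      rw [mem_inter] at haI
      rw [mem_union, not_or] at hbU
      have e1 : DEG.ind (H e) (X \ Y) = 0 := by
        unfold DEG.ind
        rw [if_neg]
        rintro ⟨⟨v, hv, hv2⟩, _⟩
        exact hcon v hv hv2
      have e2 : DEG.ind (H e) X = 1 := by
        unfold DEG.ind
        rw [if_pos]
        exact ⟨⟨a, ha, haI.1⟩, b, hb, hbU.1⟩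
      have e3 : DEG.ind (H e) Y = 1 := by
        unfold DEG.ind
        rw [if_pos]
        exact ⟨⟨a, ha, haI.2⟩, b, hb, hbU.2⟩
      have e4 : DEG.ind (H e) (Y \ X) ≤ 1 := by
        unfold DEG.ind
        split_ifs <;> omega
      omega
  omega

/-- Pairs of lines through `j` with the tight posimodular inequality. -/
def PM (H : E → Finset V) (L L' : Finset V) : Prop :=
  ∀ e, (∃ v ∈ H e, v ∈ L ∩ L') → (∃ v ∈ H e, v ∉ L ∪ L') →
    (∃ v ∈ H e, v ∈ L \ L') ∧ ∃ v ∈ H e, v ∈ L' \ L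

theorem PM_of {L L' : Finset V}
    (h : cut H L + cut H L' ≤ cut H (L \ L') + cut H (L' \ L)) : PM H L L' := by
  intro e h1 h2
  refine ⟨bad_aux H L L' h e h1 h2, bad_aux H L' L (by omega) e ?_ ?_⟩
  · rwa [inter_comm]
  · rwa [union_comm]

/-- counting -/
theorem count (T : Finset V) (e : Finset V) (g : V → V) (d : V) (hd : d ∈ e)
    (hg : ∀ x ∈ T, g x ∈ e) (hgd : ∀ x ∈ T, g x ≠ d)
    (hinj : ∀ x ∈ T, ∀ y ∈ T, g x = g y → x = y) : T.card + 1 ≤ e.card := by
  have h1 : T.card ≤ (e.erase d).card := by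
    apply Finset.card_le_card_of_injOn g
    · intro x hx
      exact mem_coe.2 (mem_erase.2 ⟨hgd x hx, hg x hx⟩)
    · intro x hx y hy hxy
      exact hinj x hx y hy hxy
  rw [Finset.card_erase_of_mem hd] at h1
  have h2 : 0 < e.card := Finset.card_pos.2 ⟨d, hd⟩
  omega

/-- three distinct members -/
theorem three {T : Finset V} (hT : 3 ≤ T.card) (x : V) :
    ∃ y ∈ T, ∃ z ∈ T, y ≠ x ∧ z ≠ x ∧ y ≠ z := by
  have h1 : 1 < (T.erase x).card := by
    have := Finset.pred_card_le_card_erase (s := T) (a := x)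
    omega
  obtain ⟨y, hy, z, hz, hyz⟩ := Finset.one_lt_card.1 h1
  rw [mem_erase] at hy hz
  exact ⟨y, hy.2, z, hz.2, hy.1, hz.1, hyz⟩

/-- Sunflowers. -/
theorem sunflower (L : V → Finset V) (T D : Finset V) (hT : 3 ≤ T.card)
    (hD : ∀ x ∈ T, ∀ y ∈ T, x ≠ y → L x ∩ L y = D)
    (hpm : ∀ x ∈ T, ∀ y ∈ T, x ≠ y → PM H (L x) (L y)) (hcut : cut H D ≠ 0) :
    ∃ e, T.card + 1 ≤ (H e).card := by
  classical
  obtain ⟨e, he⟩ := Finset.card_pos.1 (Nat.pos_of_ne_zero hcut)
  rw [mem_filter] at he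
  obtain ⟨_, ⟨d, hde, hdD⟩, c, hce, hcD⟩ := he
  have meets : ∀ x ∈ T, ∃ v ∈ H e, v ∈ L x \ D := by
    intro x hx
    by_contra hcon
    push Not at hcon
    obtain ⟨y, hy, z, hz, hyx, hzx, hyz⟩ := three hT x
    have sub : ∀ y ∈ T, y ≠ x → ∀ v ∈ H e, v ∈ L y := by
      intro y hy hyx v hv
      have h1 : v ∈ L x ∪ L y := by
        by_contra hvn
        obtain ⟨⟨w, hw, hw2⟩, _⟩ := hpm x hx y hy (Ne.symm hyx) e
          ⟨d, hde, by rw [hD x hx y hy (Ne.symm hyx)]; exact hdD⟩ ⟨v, hv, hvn⟩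
        apply hcon w hw
        rw [← hD x hx y hy (Ne.symm hyx), sdiff_inter_self_left]
        exact hw2
      rcases mem_union.1 h1 with h2 | h2
      · have h3 := hcon v hv
        rw [mem_sdiff, not_and, not_not] at h3
        have h4 := h3 h2
        rw [← hD x hx y hy (Ne.symm hyx)] at h4
        exact (mem_inter.1 h4).2
      · exact h2
    apply hcD
    rw [← hD y hy z hz hyz]
    exact mem_inter.2 ⟨sub y hy hyx c hce, sub z hz hzx c hce⟩
  refine ⟨e, count T (H e) (fun x => if hx : x ∈ T then (meets x hx).choose else d) d hde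
    ?_ ?_ ?_⟩
  · intro x hx
    simp only [hx, dif_pos]
    exact (meets x hx).choose_spec.1
  · intro x hx
    simp only [hx, dif_pos]
    intro h
    have := (mem_sdiff.1 (meets x hx).choose_spec.2).2
    rw [h] at this
    exact this hdD
  · intro x hx y hy hxy
    simp only [hx, hy, dif_pos] at hxy
    by_contra hne
    have h1 := mem_sdiff.1 (meets x hx).choose_spec.2
    have h2 := mem_sdiff.1 (meets y hy).choose_spec.2
    rw [← hxy] at h2
    apply h1.2
    have h3 := mem_inter.2 ⟨h1.1, h2.1⟩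
    rwa [hD x hx y hy hne] at h3

/-- The mixed case. -/
theorem mixed (L : V → Finset V) (T : Finset V) (j : V) (hjT : j ∉ T)
    (hj : ∀ x ∈ T, j ∈ L x) (hx : ∀ x ∈ T, x ∈ L x)
    (hne : ∀ x ∈ T, ∀ y ∈ T, x ≠ y → y ∉ L x)
    (hpm : ∀ x ∈ T, ∀ y ∈ T, x ≠ y → PM H (L x) (L y))
    (hdi : ∀ x ∈ T, ∀ y ∈ T, x ≠ y → L x ∩ L y = {j} ∨ (L x \ L y = {x} ∧ L y \ L x = {y}))
    (hle : ∀ x ∈ T, cut H (L x) ≤ cut H (L x \ {j}))
    (hex1 : ∃ x ∈ T, ∃ y ∈ T, x ≠ y ∧ L x ∩ L y = {j})
    (hex2 : ∃ x ∈ T, ∃ y ∈ T, x ≠ y ∧ L x ∩ L y ≠ {j})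
    (hcut : cut H {j} ≠ 0) :
    ∃ e, T.card + 1 ≤ (H e).card := by
  classical
  obtain ⟨e, he⟩ := Finset.card_pos.1 (Nat.pos_of_ne_zero hcut)
  rw [mem_filter] at he
  obtain ⟨_, ⟨j', hje, hjj⟩, c, hce, hcj⟩ := he
  rw [mem_singleton] at hjj
  subst hjj
  rw [mem_singleton] at hcj
  -- mates have the same core
  have core : ∀ x ∈ T, ∀ y ∈ T, x ≠ y → L x ∩ L y ≠ {j'} → L x = insert x (L x ∩ L y) := by
    intro x hxT y hyT hxy hn
    obtain ⟨h1, h2⟩ := (hdi x hxT y hyT hxy).resolve_left hn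
    ext w
    rw [mem_insert, mem_inter]
    constructor
    · intro hw
      by_cases hwy : w ∈ L y
      · exact Or.inr ⟨hw, hwy⟩
      · left
        have : w ∈ L x \ L y := mem_sdiff.2 ⟨hw, hwy⟩
        rwa [h1, mem_singleton] at this
    · rintro (rfl | hw)
      · exact hx w hxT
      · exact hw.1
  have trans : ∀ x ∈ T, ∀ y ∈ T, ∀ z ∈ T, x ≠ y → x ≠ z → y ≠ z → L x ∩ L y ≠ {j'} →
      L x ∩ L z ≠ {j'} → L y ∩ L z ≠ {j'} := by
    intro x hxT y hyT z hzT hxy hxz hyz h1 h2 h3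
    have c1 := core x hxT y hyT hxy h1
    have c2 := core x hxT z hzT hxz h2
    have nx1 : x ∉ L x ∩ L y := fun h => hne y hyT x hxT (Ne.symm hxy) (mem_inter.1 h).2
    have nx2 : x ∉ L x ∩ L z := fun h => hne z hzT x hxT (Ne.symm hxz) (mem_inter.1 h).2
    have c3 : L x ∩ L y = L x ∩ L z := by
      have : (insert x (L x ∩ L y)).erase x = (insert x (L x ∩ L z)).erase x := by
        rw [← c1, ← c2]
      rwa [Finset.erase_insert nx1, Finset.erase_insert nx2] at this
    apply h1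
    apply Finset.Subset.antisymm
    · intro w hw
      rw [← h3]
      refine mem_inter.2 ⟨(mem_inter.1 hw).2, ?_⟩
      rw [c3] at hw
      exact (mem_inter.1 hw).2
    · intro w hw
      rw [mem_singleton] at hw
      subst hw
      exact mem_inter.2 ⟨hj x hxT, hj y hyT⟩
  -- symmetric form
  have comm : ∀ x y, L x ∩ L y = {j'} → L y ∩ L x = {j'} := by
    intro x y h
    rwa [inter_comm]
  -- a token w that is a non-mate of two mates: all hyperedges at j meet its petal and contain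
  -- the mates
  have B : ∀ w ∈ T, ∀ z ∈ T, ∀ z' ∈ T, w ≠ z → w ≠ z' → z ≠ z' → L z ∩ L z' ≠ {j'} →
      L w ∩ L z = {j'} → L w ∩ L z' = {j'} →
      ∀ f, j' ∈ H f → (∃ c ∈ H f, c ≠ j') → (∃ v ∈ H f, v ∈ L w \ {j'}) ∧ z ∈ H f := by
    intro w hwT z hzT z' hz'T hwz hwz' hzz' hm hn1 hn2
    obtain ⟨d1, d2⟩ := (hdi z hzT z' hz'T hzz').resolve_left hm
    -- a hyperedge at j meeting the petal of w contains z
    have P1 : ∀ f, j' ∈ H f → (∃ v ∈ H f, v ∈ L w \ {j'}) → z ∈ H f := by
      rintro f hf ⟨v, hv, hvw⟩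
      rw [mem_sdiff, mem_singleton] at hvw
      obtain ⟨⟨u, hu, hu2⟩, _⟩ := hpm z hzT z' hz'T hzz' f
        ⟨j', hf, mem_inter.2 ⟨hj z hzT, hj z' hz'T⟩⟩ ⟨v, hv, by
          rw [mem_union, not_or]
          constructor
          · intro h
            have : v ∈ L w ∩ L z := mem_inter.2 ⟨hvw.1, h⟩
            rw [hn1, mem_singleton] at this
            exact hvw.2 this
          · intro h
            have : v ∈ L w ∩ L z' := mem_inter.2 ⟨hvw.1, h⟩
            rw [hn2, mem_singleton] at this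
            exact hvw.2 this⟩
      rw [d1, mem_singleton] at hu2
      rwa [hu2] at hu
    -- the hyperedges at j inside L w
    have P2 : ∀ f, j' ∈ H f → (∃ c ∈ H f, c ≠ j') → ¬ H f ⊆ L w := by
      rintro f hf ⟨c, hc, hcj⟩ hsub
      have h1 := P1 f hf ⟨c, hc, mem_sdiff.2 ⟨hsub hc, by simpa using hcj⟩⟩
      exact hne w hwT z hzT hwz (hsub h1)
    have P3 : ∀ f, j' ∈ H f → (∃ c ∈ H f, c ≠ j') → ∃ v ∈ H f, v ∈ L w \ {j'} := by
      by_contra hcon
      push Not at hcon
      obtain ⟨f, hf, ⟨c, hc, hcj⟩, hfn⟩ := hcon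
      have h1 := hle w hwT
      have h2 : cut H (L w \ {j'}) < cut H (L w) := by
        unfold cut
        apply Finset.card_lt_card
        rw [Finset.ssubset_iff_of_subset]
        · refine ⟨f, ?_, ?_⟩
          · rw [mem_filter]
            refine ⟨mem_univ _, ⟨j', hf, hj w hwT⟩, c, hc, fun h => ?_⟩
            exact hfn c hc (mem_sdiff.2 ⟨h, by simpa using hcj⟩)
          · rw [mem_filter]
            rintro ⟨_, ⟨v, hv, hv2⟩, _⟩
            exact hfn v hv hv2
        · intro g hg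
          rw [mem_filter] at hg ⊢
          obtain ⟨_, ⟨v, hv, hv2⟩, u, hu, hu2⟩ := hg
          refine ⟨mem_univ _, ⟨v, hv, (mem_sdiff.1 hv2).1⟩, ?_⟩
          by_cases hug : u ∈ L w
          · have huj : u = j' := by
              by_contra h
              exact hu2 (mem_sdiff.2 ⟨hug, by simpa using h⟩)
            subst huj
            have h3 := P2 g hu ⟨v, hv, by
              have := (mem_sdiff.1 hv2).2
              simpa using this⟩
            rw [Finset.not_subset] at h3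
            exact h3
          · exact ⟨u, hu, hug⟩
      omega
    intro f hf hc
    exact ⟨P3 f hf hc, P1 f hf (P3 f hf hc)⟩
  have hedge : ∃ c ∈ H e, c ≠ j' := ⟨c, hce, hcj⟩
  -- every token with a mate lies in e
  have C1 : ∀ z ∈ T, (∃ z' ∈ T, z ≠ z' ∧ L z ∩ L z' ≠ {j'}) → z ∈ H e := by
    rintro z hz ⟨z', hz', hzz', hm⟩
    -- a non-mate
    obtain ⟨w, hw, hwz, hn⟩ : ∃ w ∈ T, w ≠ z ∧ L w ∩ L z = {j'} := by
      by_contra hcon
      push Not at hcon
      obtain ⟨x, hxT, y, hyT, hxy, hxyj⟩ := hex1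
      by_cases h1 : x = z
      · subst h1
        exact hcon y hyT (Ne.symm hxy) (comm _ _ hxyj)
      · by_cases h2 : y = z
        · subst h2
          exact hcon x hxT hxy hxyj
        · exact trans z hz x hxT y hyT (Ne.symm h1) (Ne.symm h2) hxy
            (fun h => hcon x hxT h1 (comm _ _ h)) (fun h => hcon y hyT h2 (comm _ _ h)) hxyj
    have hwz' : w ≠ z' := by
      rintro rfl
      exact hm (comm _ _ hn)
    have hn' : L w ∩ L z' = {j'} := by
      by_contra h
      exact trans z' hz' w hw z hz (Ne.symm hwz') (Ne.symm hzz') hwz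
        (fun h' => h (comm _ _ h')) (fun h' => hm (comm _ _ h')) hn
    exact (B w hw z hz z' hz' hwz hwz' hzz' hm hn hn' e hje hedge).2
  have C2 : ∀ w ∈ T, (∀ z' ∈ T, w ≠ z' → L w ∩ L z' = {j'}) → ∃ v ∈ H e, v ∈ L w \ {j'} := by
    intro w hw hall
    obtain ⟨z, hz, z', hz', hzz', hm⟩ := hex2
    have hwz : w ≠ z := by
      rintro rfl
      exact hm (hall z' hz' hzz')
    have hwz' : w ≠ z' := by
      rintro rfl
      exact hm (comm _ _ (hall z hz (Ne.symm hzz')))
    exact (B w hw z hz z' hz' hwz hwz' hzz' hm (hall z hz hwz) (hall z' hz' hwz') e hje hedge).1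
  have C3 : ∀ w ∈ T, w ∉ H e → (∀ z' ∈ T, w ≠ z' → L w ∩ L z' = {j'}) := by
    intro w hw hwe z' hz' hne'
    by_contra h
    exact hwe (C1 w hw ⟨z', hz', hne', h⟩)
  refine ⟨e, count T (H e) (fun x => if hx : x ∈ T ∧ x ∉ H e then
    (C2 x hx.1 (C3 x hx.1 hx.2)).choose else x) j' hje ?_ ?_ ?_⟩
  · intro x hxT
    by_cases hxe : x ∈ H e
    · simp only [hxe, not_true_eq_false, and_false, dif_neg, not_false_iff]
    · simp only [hxT, hxe, not_false_iff, and_self, dif_pos]
      exact (C2 x hxT (C3 x hxT hxe)).choose_spec.1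
  · intro x hxT
    by_cases hxe : x ∈ H e
    · simp only [hxe, not_true_eq_false, and_false, dif_neg, not_false_iff]
      rintro rfl
      exact hjT hxT
    · simp only [hxT, hxe, not_false_iff, and_self, dif_pos]
      intro h
      have := (mem_sdiff.1 (C2 x hxT (C3 x hxT hxe)).choose_spec.2).2
      rw [h] at this
      simp at this
  · intro x hxT y hyT hxy
    by_cases hxe : x ∈ H e
    · by_cases hye : y ∈ H e
      · simp only [hxe, hye, not_true_eq_false, and_false, dif_neg, not_false_iff] at hxy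
        exact hxy
      · simp only [hxe, hyT, hye, not_true_eq_false, and_false, dif_neg, not_false_iff,
          and_self, dif_pos] at hxy
        by_contra hne'
        have h1 := mem_sdiff.1 (C2 y hyT (C3 y hyT hye)).choose_spec.2
        rw [← hxy] at h1
        exact hne y hyT x hxT (Ne.symm hne') h1.1
    · by_cases hye : y ∈ H e
      · simp only [hxe, hxT, hye, not_true_eq_false, and_false, dif_neg, not_false_iff,
          and_self, dif_pos] at hxy
        by_contra hne'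
        have h1 := mem_sdiff.1 (C2 x hxT (C3 x hxT hxe)).choose_spec.2
        rw [hxy] at h1
        exact hne x hxT y hyT hne' h1.1
      · simp only [hxe, hye, hxT, hyT, not_false_iff, and_self, dif_pos] at hxy
        by_contra hne'
        have h1 := mem_sdiff.1 (C2 x hxT (C3 x hxT hxe)).choose_spec.2
        have h2 := mem_sdiff.1 (C2 y hyT (C3 y hyT hye)).choose_spec.2
        rw [← hxy] at h2
        have h3 := C3 x hxT hxe y hyT hne'
        have h4 : (C2 x hxT (C3 x hxT hxe)).choose ∈ L x ∩ L y := mem_inter.2 ⟨h1.1, h2.1⟩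
        rw [h3] at h4
        exact h1.2 h4

end

end Pool.Agent.Work.MP_2183d4_add
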