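import Pool.Agent.Work.MP_2183d4_add.Basic

/-! # MP_2183d4_lc: stuck instances, no multiple half-edges in a minimal one -/

set_option autoImplicit false

namespace Pool.Agent.Work.MP_2183d4_add

open Finset Pool.Agent.Work.MP_2183d4_lc_66

/-- A stuck instance: no pair of half-edges can be split off. -/
structure Stuck {V E : Type} [Fintype V] [DecidableEq V] [Fintype E]
    (H : E → Finset V) (m : V → ℕ) (R : Finset V → ℕ) : Prop where
  rq : Rq R
  feas : ∀ X, R X ≤ F H m X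
  w : ∀ X, cut H X = 0 → ∑ v ∈ X, m v ≠ 1
  big : 4 ≤ ∑ v, m v
  pair : ∀ u v, u ≠ v → 0 < m u → 0 < m v → ∃ X : Finset V, u ∈ X ∧ v ∈ X ∧ F H m X ≤ R X + 1
  two : ∀ u, 2 ≤ m u → ∃ X : Finset V, u ∈ X ∧ F H m X ≤ R X + 1

section
variable {V E : Type} [Fintype V] [DecidableEq V] [Fintype E]
variable {H : E → Finset V} {m : V → ℕ} {R : Finset V → ℕ}

theorem Stuck.all (h : Stuck H m R) (X : Finset V) (hX : ∀ v, v ∉ X → m v = 0) :
    R X + ∑ v, m v ≤ F H m X := by
  have h1 := h.feas Xᶜ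
  have h2 : ∑ v ∈ X, m v = ∑ v, m v :=
    Finset.sum_subset (subset_univ X) (fun v _ hv => hX v hv)
  have h3 : ∑ v ∈ Xᶜ, m v = 0 :=
    Finset.sum_eq_zero fun v hv => hX v (by simpa using hv)
  rw [h.rq.compl X] at h1
  unfold F at h1 ⊢
  rw [MULT.cut_compl, h3] at h1
  rw [h2]
  omega

theorem Stuck.out (h : Stuck H m R) (X : Finset V) (hX : F H m X ≤ R X + 1) :
    ∃ v, v ∉ X ∧ 0 < m v := by
  by_contra hcon
  push Not at hcon
  have h1 := h.all X (fun v hv => Nat.eq_zero_of_le_zero (hcon v hv))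
  have h2 := h.big
  omega

/-- Maximal dangerous sets. -/
def MD (H : E → Finset V) (m : V → ℕ) (R : Finset V → ℕ) (L : Finset V) : Prop :=
  F H m L ≤ R L + 1 ∧ ∀ Y, L ⊂ Y → R Y + 2 ≤ F H m Y

theorem exists_MD {X : Finset V} (hX : F H m X ≤ R X + 1) : ∃ L, X ⊆ L ∧ MD H m R L := by
  classical
  obtain ⟨L, hL, hmax⟩ := Finset.exists_max_image
    ((univ : Finset (Finset V)).filter fun Y => X ⊆ Y ∧ F H m Y ≤ R Y + 1) (fun Y => Y.card)
    ⟨X, by simp [hX]⟩
  simp only [mem_filter, mem_univ, true_and] at hL hmax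
  refine ⟨L, hL.1, hL.2, ?_⟩
  intro Y hY
  by_contra hcon
  have h1 := hmax Y ⟨hL.1.trans hY.1, by omega⟩
  have h2 := Finset.card_lt_card hY
  omega

theorem pairMD (h : Stuck H m R) {L L' : Finset V} (hL : MD H m R L) (hL' : MD H m R L')
    (hne : L ≠ L') {t : V} (ht : t ∈ L) (ht' : t ∈ L') (hm : 0 < m t) :
    F H m (L ∩ L') ≤ R (L ∩ L') ∨
      (F H m (L \ L') ≤ R (L \ L') ∧ F H m (L' \ L) ≤ R (L' \ L) ∧ ∑ v ∈ L ∩ L', m v = 1 ∧
        cut H L + cut H L' ≤ cut H (L \ L') + cut H (L' \ L)) := by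
  have hU : R (L ∪ L') + 2 ≤ F H m (L ∪ L') := by
    apply hL.2
    refine Finset.ssubset_iff_subset_ne.2 ⟨subset_union_left, fun he => ?_⟩
    have h1 : L' ⊆ L := by
      rw [he]
      exact subset_union_right
    have h2 := hL'.2 L (Finset.ssubset_iff_subset_ne.2 ⟨h1, fun hh => hne hh.symm⟩)
    have h3 := hL.1
    omega
  have hmt : 1 ≤ ∑ v ∈ L ∩ L', m v :=
    le_trans hm (Finset.single_le_sum (f := m) (fun _ _ => Nat.zero_le _) (mem_inter.2 ⟨ht, ht'⟩))
  have h1 := hL.1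
  have h2 := hL'.1
  rcases h.rq.skew L L' with hs | hs
  · left
    have h3 := F_sub H m L L'
    omega
  · right
    have h3 := F_posi H m L L'
    have h4 := h.feas (L \ L')
    have h5 := h.feas (L' \ L)
    have h6 := mt_left m L L'
    have h7 := mt_right m L L'
    refine ⟨by omega, by omega, by omega, ?_⟩
    unfold F at *
    omega

/-- In a stuck instance whose tight sets are singletons there are no multiple half-edges. -/
theorem mult (h : Stuck H m R)
    (hT : ∀ X : Finset V, X.Nonempty → F H m X ≤ R X → ∃ v, X = {v}) (v : V) : m v ≤ 1 := by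
  classical
  by_contra hv
  have hv2 : 2 ≤ m v := by omega
  set 𝓛 : Finset (Finset V) := (univ : Finset (Finset V)).filter
    (fun L => MD H m R L ∧ v ∈ L ∧ ∃ x ∈ L, x ≠ v ∧ 0 < m x) with h𝓛
  have mem𝓛 : ∀ L, L ∈ 𝓛 ↔ (MD H m R L ∧ v ∈ L ∧ ∃ x ∈ L, x ≠ v ∧ 0 < m x) := by
    intro L
    rw [h𝓛, mem_filter]
    simp
  have cover : ∀ x, x ≠ v → 0 < m x → ∃ L ∈ 𝓛, x ∈ L := by
    intro x hx hmx
    obtain ⟨X, h1, h2, h3⟩ := h.pair x v hx hmx (by omega)
    obtain ⟨L, hXL, hL⟩ := exists_MD h3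
    exact ⟨L, (mem𝓛 L).2 ⟨hL, hXL h2, x, hXL h1, hx, hmx⟩, hXL h1⟩
  have pw : ∀ L ∈ 𝓛, ∀ L' ∈ 𝓛, L ≠ L' → L ∩ L' = {v} ∧ F H m {v} ≤ R {v} := by
    intro L hL L' hL' hne
    rw [mem𝓛] at hL hL'
    rcases pairMD h hL.1 hL'.1 hne hL.2.1 hL'.2.1 (by omega) with h1 | h1
    · obtain ⟨w, hw⟩ := hT _ ⟨v, mem_inter.2 ⟨hL.2.1, hL'.2.1⟩⟩ h1
      have h2 : v ∈ L ∩ L' := mem_inter.2 ⟨hL.2.1, hL'.2.1⟩
      rw [hw, mem_singleton] at h2
      subst h2
      refine ⟨hw, ?_⟩
      rw [← hw]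
      exact h1
    · have h2 : m v ≤ ∑ w ∈ L ∩ L', m w :=
        Finset.single_le_sum (f := m) (fun _ _ => Nat.zero_le _)
          (mem_inter.2 ⟨hL.2.1, hL'.2.1⟩)
      omega
  -- two members
  obtain ⟨x0, hx0, hmx0⟩ : ∃ x, x ≠ v ∧ 0 < m x := by
    obtain ⟨X, h1, h2⟩ := h.two v hv2
    obtain ⟨w, hw, hmw⟩ := h.out X h2
    exact ⟨w, fun he => hw (he ▸ h1), hmw⟩
  obtain ⟨La, hLa, hxa⟩ := cover x0 hx0 hmx0
  obtain ⟨y, hyLa, hmy⟩ := h.out La ((mem𝓛 La).1 hLa).1.1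
  have hyv : y ≠ v := fun he => hyLa (he ▸ ((mem𝓛 La).1 hLa).2.1)
  obtain ⟨Lb, hLb, hyb⟩ := cover y hyv hmy
  have hab : La ≠ Lb := fun he => hyLa (he ▸ hyb)
  have tv : F H m {v} ≤ R {v} := (pw La hLa Lb hLb hab).2
  have fv := h.feas {v}
  have sv : ∑ w ∈ ({v} : Finset V), m w = m v := Finset.sum_singleton m v
  -- the member with the largest petal
  obtain ⟨L0, hL0, hmax⟩ := Finset.exists_max_image 𝓛 (fun L => F H m (L \ {v})) ⟨La, hLa⟩
  have hL0' := (mem𝓛 L0).1 hL0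
  have sd : ∀ L ∈ 𝓛, ∀ L' ∈ 𝓛, L ≠ L' → L \ L' = L \ {v} := by
    intro L hL L' hL' hne
    rw [← (pw L hL L' hL' hne).1, sdiff_inter_self_left]
  have posi : ∀ L ∈ 𝓛, ∀ L' ∈ 𝓛, L ≠ L' →
      F H m (L \ {v}) + F H m (L' \ {v}) + 2 * m v ≤ F H m L + F H m L' := by
    intro L hL L' hL' hne
    have h1 := F_posi H m L L'
    rw [sd L hL L' hL' hne, sd L' hL' L hL (fun he => hne he.symm), (pw L hL L' hL' hne).1,
      sv] at h1
    exact h1
  have unL : ∀ L ∈ 𝓛, R L ≤ max (R {v}) (R (L \ {v})) := by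
    intro L hL
    exact h.rq.un (singleton_subset_iff.2 ((mem𝓛 L).1 hL).2.1)
  have small : ∀ L ∈ 𝓛, L ≠ L0 → F H m (L \ {v}) < F H m {v} := by
    intro L hL hne
    by_contra hcon
    push Not at hcon
    have h1 := hmax L hL
    have h2 := posi L hL L0 hL0 hne
    have h3 := unL L hL
    have h4 := unL L0 hL0
    have h5 := h.feas (L \ {v})
    have h6 := h.feas (L0 \ {v})
    have h7 := ((mem𝓛 L).1 hL).1.1
    have h8 := hL0'.1.1
    omega
  have RL : ∀ L ∈ 𝓛, L ≠ L0 → F H m L ≤ F H m {v} + 1 := by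
    intro L hL hne
    have h1 := small L hL hne
    have h3 := unL L hL
    have h5 := h.feas (L \ {v})
    have h7 := ((mem𝓛 L).1 hL).1.1
    omega
  set 𝓖 := 𝓛.erase L0 with h𝓖
  have h𝓖ne : 𝓖.Nonempty := by
    by_cases he : La = L0
    · exact ⟨Lb, mem_erase.2 ⟨fun h' => hab (he.trans h'.symm), hLb⟩⟩
    · exact ⟨La, mem_erase.2 ⟨he, hLa⟩⟩
  obtain ⟨L1, hL1, hmax1⟩ := Finset.exists_max_image 𝓖 (fun L => R (L \ {v})) h𝓖ne
  have hL1' := mem_erase.1 hL1
  have mtL : ∀ L ∈ 𝓛, m v + 1 ≤ ∑ w ∈ L, m w := by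
    intro L hL
    obtain ⟨_, hvL, x, hx, hxv, hmx⟩ := (mem𝓛 L).1 hL
    have h1 : ({v, x} : Finset V) ⊆ L := by
      intro w hw
      rw [mem_insert, mem_singleton] at hw
      rcases hw with rfl | rfl
      · exact hvL
      · exact hx
    have h2 : ∑ w ∈ ({v, x} : Finset V), m w ≤ ∑ w ∈ L, m w := Finset.sum_le_sum_of_subset h1
    rw [Finset.sum_pair (Ne.symm hxv)] at h2
    omega
  -- unions
  have key : ∀ G : Finset (Finset V), G ⊆ 𝓖 →
      F H m ({v} ∪ G.biUnion id) ≤ F H m {v} + G.card ∧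
      m v + G.card ≤ ∑ w ∈ {v} ∪ G.biUnion id, m w ∧
      R (({v} ∪ G.biUnion id) \ {v}) ≤ R (L1 \ {v}) := by
    intro G
    induction G using Finset.induction_on with
    | empty =>
      intro _
      simp [h.rq.empty]
    | insert L G hLG ih =>
      intro hsub
      obtain ⟨i1, i2, i3⟩ := ih ((subset_insert L G).trans hsub)
      have hL := mem_erase.1 (hsub (mem_insert_self L G))
      set A := {v} ∪ G.biUnion id with hA
      have hvL := ((mem𝓛 L).1 hL.2).2.1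
      have hU : {v} ∪ (insert L G).biUnion id = L ∪ A := by
        rw [hA, Finset.biUnion_insert]
        ext w
        simp only [mem_union, mem_singleton, id_eq]
        tauto
      have hI : L ∩ A = {v} := by
        ext w
        rw [mem_inter, mem_singleton]
        constructor
        · rintro ⟨h1, h2⟩
          rw [hA, mem_union, mem_singleton, mem_biUnion] at h2
          rcases h2 with h2 | ⟨L', hL', h2⟩
          · exact h2
          · have hL'2 := mem_erase.1 (hsub (mem_insert_of_mem hL'))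
            have hne : L ≠ L' := by
              rintro rfl
              exact hLG hL'
            have h3 : w ∈ L ∩ L' := mem_inter.2 ⟨h1, h2⟩
            rwa [(pw L hL.2 L' hL'2.2 hne).1, mem_singleton] at h3
        · rintro rfl
          exact ⟨hvL, by rw [hA]; simp⟩
      rw [hU]
      have h1 := F_sub H m L A
      have h2 := mt_union m L A
      rw [hI] at h1 h2
      rw [sv] at h2
      have h3 := RL L hL.2 hL.1
      have h4 := mtL L hL.2
      rw [Finset.card_insert_of_notMem hLG]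
      refine ⟨by omega, by omega, ?_⟩
      have h5 : (L ∪ A) \ {v} = (L \ {v}) ∪ (A \ {v}) := union_sdiff_distrib L A {v}
      rw [h5]
      have h6 := h.rq.union (L \ {v}) (A \ {v})
      have h7 := hmax1 L (mem_erase.2 hL)
      omega
  obtain ⟨k1, k2, k3⟩ := key 𝓖 (subset_refl _)
  set U' := {v} ∪ 𝓖.biUnion id with hU'
  have hI : L0 ∩ U' = {v} := by
    ext w
    rw [mem_inter, mem_singleton]
    constructor
    · rintro ⟨h1, h2⟩
      rw [hU', mem_union, mem_singleton, mem_biUnion] at h2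
      rcases h2 with h2 | ⟨L', hL', h2⟩
      · exact h2
      · have hL'2 := mem_erase.1 hL'
        have h3 : w ∈ L0 ∩ L' := mem_inter.2 ⟨h1, h2⟩
        rwa [(pw L0 hL0 L' hL'2.2 (Ne.symm hL'2.1)).1, mem_singleton] at h3
    · rintro rfl
      exact ⟨hL0'.2.1, by rw [hU']; simp⟩
  have h1 := F_sub H m L0 U'
  have h2 := mt_union m L0 U'
  rw [hI] at h1 h2
  rw [sv] at h2
  have h3 := mtL L0 hL0
  have h4 := h.all (L0 ∪ U') (by
    intro x hx
    by_contra hmx
    have hxv : x ≠ v := by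
      rintro rfl
      exact hx (mem_union_left _ hL0'.2.1)
    obtain ⟨L, hL, hxL⟩ := cover x hxv (by omega)
    by_cases he : L = L0
    · exact hx (mem_union_left _ (he ▸ hxL))
    · apply hx
      apply mem_union_right
      rw [hU', mem_union, mem_biUnion]
      right
      exact ⟨L, mem_erase.2 ⟨he, hL⟩, hxL⟩)
  have h5 : ∑ w ∈ L0 ∪ U', m w ≤ ∑ w, m w := Finset.sum_le_sum_of_subset (subset_univ _)
  have h6 := hL0'.1.1
  have h7 := h.rq.tri (subset_union_left : L0 ⊆ L0 ∪ U')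
  have h8 : (L0 ∪ U') \ L0 = U' \ {v} := by
    rw [union_sdiff_left, ← hI, inter_comm, sdiff_inter_self_left]
  rw [h8] at h7
  have h9 := h.feas (L1 \ {v})
  have h10 := small L1 hL1'.2 hL1'.1
  have h11 := h.rq.tri (singleton_subset_iff.2 hL0'.2.1 : ({v} : Finset V) ⊆ L0)
  have h12 := h.feas (L0 \ {v})
  have h13 := posi L0 hL0 L1 hL1'.2 (Ne.symm hL1'.1)
  have h14 := RL L1 hL1'.2 hL1'.1
  omega

end

end Pool.Agent.Work.MP_2183d4_add
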