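import Pool.Agent.Work.MP_2183d4_add.Contract

/-! # MP_2183d4_lc: additive bound, reduction -/

set_option autoImplicit false

namespace Pool.Agent.Work.MP_2183d4_add

open Finset Pool.Agent.Work.MP_2183d4_lc_66

section
variable {V E : Type} [Fintype V] [DecidableEq V] [Fintype E]

/-- the star: all half-edges but one are joined to the last one -/
theorem star' (H : E → Finset V) (m : V → ℕ) (R : Finset V → ℕ) (hR : Rq R)
    (hm : ∀ X, R X ≤ F H m X) (w : V) (hw : 0 < m w) :
    ∃ g : Fin (∑ v, m v - 1) → V × V, ∀ X : Finset V, R X ≤ cut H X + gcut g X := by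
  classical
  set m1 : V → ℕ := Function.update m w (m w - 1) with hm1
  have hsum1 : ∀ X : Finset V, w ∉ X → ∑ v ∈ X, m1 v = ∑ v ∈ X, m v := by
    intro X hX
    apply Finset.sum_congr rfl
    intro v hv
    have hvw : v ≠ w := fun he => hX (he ▸ hv)
    rw [hm1, Function.update_of_ne hvw]
  have hsum : ∑ v, m1 v = ∑ v, m v - 1 := by
    rw [← Finset.add_sum_erase univ m (mem_univ w), ← Finset.add_sum_erase univ m1 (mem_univ w),
      hsum1 _ (Finset.notMem_erase w univ)]
    rw [hm1, Function.update_self]
    omega
  rw [← hsum]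
  have hcard : Fintype.card (Σ v, Fin (m1 v)) = ∑ v, m1 v := by
    rw [Fintype.card_sigma]
    simp
  let e : Fin (∑ v, m1 v) ≃ (Σ v, Fin (m1 v)) := (Fintype.equivFinOfCardEq hcard).symm
  have hcnt : ∀ X : Finset V, (univ.filter fun i => (e i).1 ∈ X).card = ∑ v ∈ X, m1 v := by
    intro X
    have h1 : (univ.filter fun i => (e i).1 ∈ X).card =
        ((univ : Finset (Σ v, Fin (m1 v))).filter fun p => p.1 ∈ X).card := by
      apply Finset.card_bij (fun i _ => e i)
      · intro i hi
        simpa using hi
      · intro a _ b _ hab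
        exact e.injective hab
      · intro p hp
        exact ⟨e.symm p, by simpa using hp, by simp⟩
    rw [h1, Finset.card_filter, Fintype.sum_sigma]
    have h2 : ∀ v : V, (∑ _x : Fin (m1 v), if v ∈ X then 1 else 0) = if v ∈ X then m1 v else 0 := by
      intro v
      split_ifs <;> simp
    rw [Finset.sum_congr rfl (fun v _ => h2 v), ← Finset.sum_filter]
    congr 1
    ext v
    simp
  have key : ∀ X : Finset V, w ∉ X →
      R X ≤ cut H X + gcut (fun i => ((e i).1, w)) X := by
    intro X hw
    have h1 : gcut (fun i => ((e i).1, w)) X = ∑ v ∈ X, m v := by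
      rw [← hsum1 X hw, ← hcnt X]
      unfold gcut
      congr 1
      ext i
      simp [hw]
    rw [h1]
    exact hm X
  refine ⟨fun i => ((e i).1, w), ?_⟩
  intro X
  by_cases hw : w ∈ X
  · have := key Xᶜ (by simpa using hw)
    rwa [hR.compl, MULT.cut_compl, MULT.gcut_compl] at this
  · exact key X hw

/-- splitting off an admissible pair -/
theorem split (H : E → Finset V) (m : V → ℕ) (R : Finset V → ℕ) (hm : ∀ X, R X ≤ F H m X)
    (u v : V) (hu : 0 < m u) (hv : 0 < m v) (huv : u = v → 2 ≤ m u)
    (hd : ∀ X : Finset V, u ∈ X → v ∈ X → R X + 2 ≤ F H m X) :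
    ∃ m' : V → ℕ, (∀ w, m w = m' w + (if w = u then 1 else 0) + (if w = v then 1 else 0)) ∧
      (∀ X : Finset V, ∑ w ∈ X, m w = ∑ w ∈ X, m' w + (if u ∈ X then 1 else 0) +
        (if v ∈ X then 1 else 0)) ∧
      ∀ X : Finset V, R X ≤ F (addG H (fun _ : Fin 1 => (u, v))) m' X := by
  classical
  set m' : V → ℕ := fun w => m w - (if w = u then 1 else 0) - (if w = v then 1 else 0) with hm'
  have h1 : ∀ w, m w = m' w + (if w = u then 1 else 0) + (if w = v then 1 else 0) := by
    intro w
    rw [hm']
    by_cases h2 : w = u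
    · by_cases h3 : w = v
      · have h4 := huv (h2.symm.trans h3)
        subst h2
        simp only [if_true]
        rw [if_pos h3]
        omega
      · simp only [h2, if_true]
        by_cases h4 : u = v
        · exact absurd (h2.trans h4) h3
        · simp only [h4, if_false]
          omega
    · by_cases h3 : w = v
      · subst h3
        simp only [if_true, h2, if_false]
        omega
      · simp only [h2, h3, if_false]
        omega
  have h2 : ∀ X : Finset V, ∑ w ∈ X, m w = ∑ w ∈ X, m' w + (if u ∈ X then 1 else 0) +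
        (if v ∈ X then 1 else 0) := by
    intro X
    rw [Finset.sum_congr rfl (fun w _ => h1 w), Finset.sum_add_distrib, Finset.sum_add_distrib,
      Finset.sum_ite_eq', Finset.sum_ite_eq']
  refine ⟨m', h1, h2, ?_⟩
  intro X
  have h3 := hm X
  have h4 := h2 X
  have h5 := hd X
  unfold F at *
  rw [cut_addG]
  have h6 : gcut (fun _ : Fin 1 => (u, v)) X = if ¬(u ∈ X ↔ v ∈ X) then 1 else 0 := by
    unfold gcut
    rw [Finset.card_filter]
    simp
  rw [h6]
  by_cases hu : u ∈ X <;> by_cases hv : v ∈ X <;> simp only [hu, hv, if_true, if_false, iff_true,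
    iff_false, not_true, not_false_iff, forall_true_left] at h4 h5 ⊢ <;> omega

/-- The main reduction. -/
theorem reduce (k : ℕ) (hk3 : 3 ≤ k) (R : Finset V → ℕ) (hR : Rq R) (t : ℕ) :
    ∀ (E : Type) [Fintype E] (H : E → Finset V) (m : V → ℕ), (∀ e, (H e).card ≤ k) →
      (∀ X, R X ≤ F H m X) → (∀ X, cut H X = 0 → ∑ v ∈ X, m v ≠ 1) →
      ∑ v, m v = t →
      ∃ (n : ℕ) (g : Fin n → V × V), 2 * n + 2 ≤ ∑ v, m v + k ∧
        ∀ X : Finset V, R X ≤ cut H X + gcut g X := by
  classical
  induction t using Nat.strong_induction_on with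
  | _ t ih =>
    intro E _ H m hk hF hW ht
    by_cases hsmall : ∑ v, m v ≤ k
    · by_cases h0 : ∑ v, m v = 0
      · refine ⟨0, fun i => i.elim0, by omega, ?_⟩
        intro X
        have h1 := hF X
        have h2 : ∑ v ∈ X, m v ≤ ∑ v, m v := Finset.sum_le_sum_of_subset (subset_univ X)
        unfold F at h1
        omega
      · obtain ⟨w, _, hw⟩ := exists_pos (m := m) (X := univ) (by omega)
        obtain ⟨g, hg⟩ := star' H m R hR hF w hw
        exact ⟨_, g, by omega, hg⟩
    · push Not at hsmall
      have hbig : 4 ≤ ∑ v, m v := by omega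
      -- it suffices to find an admissible pair keeping (W)
      suffices hpair : ∃ u v, 0 < m u ∧ 0 < m v ∧ (u = v → 2 ≤ m u) ∧
          (∀ X : Finset V, u ∈ X → v ∈ X → R X + 2 ≤ F H m X) ∧
          (∀ X : Finset V, cut H X = 0 → (u ∈ X ↔ v ∈ X) → u ∈ X → ∑ w ∈ X, m w ≠ 3) by
        obtain ⟨u, v, hu, hv, huv, hd, h3⟩ := hpair
        obtain ⟨m', hm1, hm2, hm3⟩ := split H m R hF u v hu hv huv hd
        have hun := hm2 univ
        simp only [mem_univ, if_true] at hun
        obtain ⟨n, g, hn, hg⟩ := ih (∑ w, m' w) (by omega) (E ⊕ Fin 1)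
          (addG H (fun _ : Fin 1 => (u, v))) m' (card_addG H _ (by omega) hk) hm3 (by
            intro X hX
            rw [cut_addG] at hX
            have h6 : gcut (fun _ : Fin 1 => (u, v)) X = if ¬(u ∈ X ↔ v ∈ X) then 1 else 0 := by
              unfold gcut
              rw [Finset.card_filter]
              simp
            have h7 := hW X (by omega)
            have h8 := hm2 X
            have h9 : (u ∈ X ↔ v ∈ X) := by
              by_contra h
              rw [h6, if_pos h] at hX
              omega
            by_cases hux : u ∈ X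
            · have h10 := h3 X (by omega) h9 hux
              have hvx := h9.1 hux
              rw [if_pos hux, if_pos hvx] at h8
              omega
            · have hvx : v ∉ X := fun h => hux (h9.2 h)
              rw [if_neg hux, if_neg hvx] at h8
              omega) rfl
        refine ⟨n + 1, Fin.append g (fun _ : Fin 1 => (u, v)), by omega, ?_⟩
        intro X
        have := hg X
        rw [cut_addG] at this
        rw [gcut_append]
        omega
      by_cases hsep : ∃ Z : Finset V, cut H Z = 0 ∧ (∃ u ∈ Z, 0 < m u) ∧ ∃ v, v ∉ Z ∧ 0 < m v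
      · obtain ⟨Z, hZ, ⟨u, huZ, hu⟩, v, hvZ, hv⟩ := hsep
        have two : ∀ X : Finset V, (∃ u ∈ X, 0 < m u) → 2 ≤ F H m X := by
          rintro X ⟨u, hu, hmu⟩
          have h1 : m u ≤ ∑ v ∈ X, m v := le_mt hu
          have h2 := hW X
          unfold F
          omega
        refine ⟨u, v, hu, hv, fun he => absurd (he ▸ huZ) hvZ, ?_, ?_⟩
        · intro X huX hvX
          have h1 := REQ.cut_split H Z X hZ
          have h2 := mt_left m X Z
          have h3 := hR.un (inter_subset_left : X ∩ Z ⊆ X)
          rw [sdiff_inter_self_left] at h3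
          have h4 := hF (X ∩ Z)
          have h5 := hF (X \ Z)
          have h6 := two (X ∩ Z) ⟨u, mem_inter.2 ⟨huX, huZ⟩, hu⟩
          have h7 := two (X \ Z) ⟨v, mem_sdiff.2 ⟨hvX, hvZ⟩, hv⟩
          have h8 : F H m X = F H m (X ∩ Z) + F H m (X \ Z) := by
            unfold F
            omega
          omega
        · intro X hX hiff huX
          have hvX := hiff.1 huX
          have h1 := REQ.cut_split H Z X hZ
          have h2 := mt_left m X Z
          have h3 : m u ≤ ∑ w ∈ X ∩ Z, m w := le_mt (mem_inter.2 ⟨huX, huZ⟩)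
          have h4 : m v ≤ ∑ w ∈ X \ Z, m w := le_mt (mem_sdiff.2 ⟨hvX, hvZ⟩)
          have h5 := hW (X ∩ Z) (by omega)
          have h6 := hW (X \ Z) (by omega)
          omega
      · -- all half-edges in one component
        have hone : ∀ X : Finset V, cut H X = 0 → (∃ u ∈ X, 0 < m u) →
            ∑ w ∈ X, m w = ∑ w, m w := by
          intro X hX hu
          apply Finset.sum_subset (subset_univ _)
          intro v _ hv
          by_contra hne
          exact hsep ⟨X, hX, hu, v, hv, by omega⟩
        by_contra hcon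
        have hst : Stuck H m R := by
          refine ⟨hR, hF, hW, hbig, ?_, ?_⟩
          · intro u v huv hu hv
            by_contra hcon2
            apply hcon
            push Not at hcon2
            refine ⟨u, v, hu, hv, fun he => absurd he huv, ?_, ?_⟩
            · intro X h1 h2
              have := hcon2 X h1 h2
              omega
            · intro X hX _ huX
              have := hone X hX ⟨u, huX, hu⟩
              omega
          · intro u hu
            by_contra hcon2
            apply hcon
            push Not at hcon2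
            refine ⟨u, u, by omega, by omega, fun _ => hu, ?_, ?_⟩
            · intro X h1 _
              have := hcon2 X h1
              omega
            · intro X hX _ huX
              have := hone X hX ⟨u, huX, by omega⟩
              omega
        obtain ⟨e, he⟩ := stuck_bound _ V E H m R rfl hst
        have := hk e
        omega

end

/-- The additive bound. -/
theorem final (k : ℕ) (hk3 : 3 ≤ k) (V E : Type) [Fintype V] [DecidableEq V] [Fintype E]
    (H : E → Finset V) (r : V → V → ℕ) (hk : ∀ e, (H e).card ≤ k) (hs : ∀ x y, r x y = r y x)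
    (hmar : ∀ C, IsComponent H C → req r C = 1 → ∃ X, X ⊂ C ∧ cut H X < req r X) :
    ∃ N, IsLeast (Sizes H r) N ∧ (alpha H r + 1) / 2 ≤ N ∧
      N ≤ min (alpha H r) ((alpha H r + k) / 2) - 1 := by
  classical
  obtain ⟨m, hm, hsum, htight⟩ := stmt_DEG V E H r hs
  have htwo := two H r m hs hmar hm htight
  have hR : Rq (req r) := ⟨REQ.req_empty r, REQ.req_compl r hs, REQ.req_union r⟩
  have hex : ∃ (n : ℕ) (g : Fin n → V × V), n ≤ min (alpha H r) ((alpha H r + k) / 2) - 1 ∧
      ∀ X : Finset V, req r X ≤ cut H X + gcut g X := by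
    by_cases hsmall : alpha H r ≤ k
    · by_cases h0 : ∑ v, m v = 0
      · refine ⟨0, fun i => i.elim0, by omega, ?_⟩
        intro X
        have h1 := hm X
        have h2 : ∑ v ∈ X, m v ≤ ∑ v, m v := Finset.sum_le_sum_of_subset (subset_univ X)
        omega
      · obtain ⟨w, _, hw⟩ := exists_pos (m := m) (X := univ) (by omega)
        obtain ⟨g, hg⟩ := star' H m (req r) hR hm w hw
        exact ⟨_, g, by omega, hg⟩
    · obtain ⟨n, g, hn, hg⟩ := reduce k hk3 (req r) hR _ E H m hk hm htwo rfl
      exact ⟨n, g, by omega, hg⟩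
  obtain ⟨n, g, hn, hg⟩ := hex
  obtain ⟨n', hn', h2⟩ := mem_sizes_of H r g hg
  have hne : (Sizes H r).Nonempty := ⟨n', h2⟩
  refine ⟨sInf (Sizes H r), ⟨Nat.sInf_mem hne, fun n hn => Nat.sInf_le hn⟩, ?_, ?_⟩
  · have h1 := lb H r (Nat.sInf_mem hne)
    omega
  · have h3 := Nat.sInf_le h2
    omega

end Pool.Agent.Work.MP_2183d4_add
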