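import Pool.Agent.Work.MP_2183d4_add.Reduce

/-! # MP_2183d4_lc: the additive bound is sharp -/

set_option autoImplicit false

namespace Pool.Agent.Work.MP_2183d4_add

open Finset Pool.Agent.Work.MP_2183d4_lc_66

section grow
variable {V : Type} [Fintype V] [DecidableEq V]

/-- number of edges inside `X` -/
def ins {n : ℕ} (g : Fin n → V × V) (X : Finset V) : ℕ :=
  (univ.filter fun i => (g i).1 ∈ X ∧ (g i).2 ∈ X).card

theorem ins_insert {n : ℕ} (g : Fin n → V × V) (X : Finset V) (v : V) (hv : v ∉ X)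
    (h : ∃ i, ((g i).1 ∈ X ∧ (g i).2 = v) ∨ ((g i).2 ∈ X ∧ (g i).1 = v)) :
    ins g X + 1 ≤ ins g (insert v X) := by
  obtain ⟨i, hi⟩ := h
  unfold ins
  rw [← Nat.succ_eq_add_one, Nat.succ_le_iff]
  apply Finset.card_lt_card
  rw [Finset.ssubset_iff_of_subset]
  · refine ⟨i, ?_, ?_⟩
    · rw [mem_filter]
      rcases hi with ⟨h1, h2⟩ | ⟨h1, h2⟩
      · exact ⟨mem_univ _, mem_insert_of_mem h1, by rw [h2]; exact mem_insert_self _ _⟩
      · exact ⟨mem_univ _, by rw [h2]; exact mem_insert_self _ _, mem_insert_of_mem h1⟩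
    · rw [mem_filter]
      rintro ⟨_, h3, h4⟩
      rcases hi with ⟨h1, h2⟩ | ⟨h1, h2⟩
      · rw [h2] at h4
        exact hv h4
      · rw [h2] at h3
        exact hv h3
  · intro j hj
    rw [mem_filter] at hj ⊢
    exact ⟨mem_univ _, mem_insert_of_mem hj.2.1, mem_insert_of_mem hj.2.2⟩

/-- one growing set -/
theorem grow1 {n : ℕ} (g : Fin n → V × V) (W : Finset V) (x0 : V) (hx0 : x0 ∈ W)
    (h : ∀ X : Finset V, x0 ∈ X → X ⊂ W →
      ∃ v ∈ W, v ∉ X ∧ ∃ i, ((g i).1 ∈ X ∧ (g i).2 = v) ∨ ((g i).2 ∈ X ∧ (g i).1 = v)) :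
    W.card ≤ ins g W + 1 := by
  classical
  obtain ⟨X, hX, hmax⟩ := Finset.exists_max_image
    ((univ : Finset (Finset V)).filter fun X => x0 ∈ X ∧ X ⊆ W ∧ X.card ≤ ins g X + 1)
    (fun X => X.card) ⟨{x0}, by
      rw [mem_filter]
      exact ⟨mem_univ _, mem_singleton_self _, singleton_subset_iff.2 hx0, by simp⟩⟩
  rw [mem_filter] at hX
  obtain ⟨_, h1, h2, h3⟩ := hX
  by_cases hXW : X = W
  · rw [hXW] at h3
    exact h3
  · exfalso
    obtain ⟨v, hvW, hvX, hi⟩ := h X h1 (Finset.ssubset_iff_subset_ne.2 ⟨h2, hXW⟩)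
    have h4 := ins_insert g X v hvX hi
    have h5 := hmax (insert v X) (by
      rw [mem_filter]
      refine ⟨mem_univ _, mem_insert_of_mem h1, insert_subset hvW h2, ?_⟩
      rw [Finset.card_insert_of_notMem hvX]
      omega)
    rw [Finset.card_insert_of_notMem hvX] at h5
    omega

/-- two growing sets: a closed pair -/
theorem grow2 {n : ℕ} (g : Fin n → V × V) (A B : V) (hAB : A ≠ B) :
    ∃ X Y : Finset V, A ∈ X ∧ B ∈ Y ∧ Disjoint X Y ∧ X.card + Y.card ≤ ins g X + ins g Y + 2 ∧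
      gcut g (X ∪ Y) = 0 := by
  classical
  obtain ⟨P, hP, hmax⟩ := Finset.exists_max_image
    ((univ : Finset (Finset V × Finset V)).filter fun P => A ∈ P.1 ∧ B ∈ P.2 ∧ Disjoint P.1 P.2 ∧
      P.1.card + P.2.card ≤ ins g P.1 + ins g P.2 + 2)
    (fun P => P.1.card + P.2.card) ⟨({A}, {B}), by
      rw [mem_filter]
      refine ⟨mem_univ _, mem_singleton_self _, mem_singleton_self _, ?_, by simp⟩
      rw [Finset.disjoint_singleton]
      exact hAB⟩
  rw [mem_filter] at hP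
  obtain ⟨_, h1, h2, h3, h4⟩ := hP
  refine ⟨P.1, P.2, h1, h2, h3, h4, ?_⟩
  by_contra hne
  obtain ⟨i, hi⟩ := Finset.card_pos.1 (Nat.pos_of_ne_zero hne)
  simp only [mem_filter, mem_univ, true_and] at hi
  -- a vertex v outside joined to P.1 or P.2
  have key : ∃ v, v ∉ P.1 ∪ P.2 ∧
      ((∃ i, ((g i).1 ∈ P.1 ∧ (g i).2 = v) ∨ ((g i).2 ∈ P.1 ∧ (g i).1 = v)) ∨
       (∃ i, ((g i).1 ∈ P.2 ∧ (g i).2 = v) ∨ ((g i).2 ∈ P.2 ∧ (g i).1 = v))) := by
    by_cases h5 : (g i).1 ∈ P.1 ∪ P.2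
    · have h6 : (g i).2 ∉ P.1 ∪ P.2 := fun h => hi ⟨fun _ => h, fun _ => h5⟩
      refine ⟨(g i).2, h6, ?_⟩
      rcases mem_union.1 h5 with h7 | h7
      · exact Or.inl ⟨i, Or.inl ⟨h7, rfl⟩⟩
      · exact Or.inr ⟨i, Or.inl ⟨h7, rfl⟩⟩
    · have h6 : (g i).2 ∈ P.1 ∪ P.2 := by
        by_contra h
        exact hi ⟨fun h' => absurd h' h5, fun h' => absurd h' h⟩
      refine ⟨(g i).1, h5, ?_⟩
      rcases mem_union.1 h6 with h7 | h7
      · exact Or.inl ⟨i, Or.inr ⟨h7, rfl⟩⟩
      · exact Or.inr ⟨i, Or.inr ⟨h7, rfl⟩⟩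
  obtain ⟨v, hv, hw⟩ := key
  rw [mem_union, not_or] at hv
  rcases hw with hw | hw
  · have h5 := ins_insert g P.1 v hv.1 hw
    have h6 := hmax (insert v P.1, P.2) (by
      rw [mem_filter]
      refine ⟨mem_univ _, mem_insert_of_mem h1, h2, ?_, ?_⟩
      · rw [Finset.disjoint_insert_left]
        exact ⟨hv.2, h3⟩
      · simp only
        rw [Finset.card_insert_of_notMem hv.1]
        omega)
    simp only at h6
    rw [Finset.card_insert_of_notMem hv.1] at h6
    omega
  · have h5 := ins_insert g P.2 v hv.2 hw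
    have h6 := hmax (P.1, insert v P.2) (by
      rw [mem_filter]
      refine ⟨mem_univ _, h1, mem_insert_of_mem h2, ?_, ?_⟩
      · rw [Finset.disjoint_insert_right]
        exact ⟨hv.1, h3⟩
      · simp only
        rw [Finset.card_insert_of_notMem hv.2]
        omega)
    simp only at h6
    rw [Finset.card_insert_of_notMem hv.2] at h6
    omega

/-- disjoint kinds of edges -/
theorem ins_add {n : ℕ} (g : Fin n → V × V) (X Y Z : Finset V) (hXY : Disjoint X Y)
    (hX : ∀ v ∈ X, ∀ w ∈ X, (v ∈ Z ↔ w ∈ Z)) (hY : ∀ v ∈ Y, ∀ w ∈ Y, (v ∈ Z ↔ w ∈ Z)) :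
    ins g X + ins g Y + gcut g Z ≤ n := by
  classical
  unfold ins gcut
  rw [← Finset.card_union_of_disjoint, ← Finset.card_union_of_disjoint]
  · refine (Finset.card_le_univ _).trans ?_
    simp
  · rw [Finset.disjoint_left]
    intro i hi hi2
    rw [mem_union, mem_filter, mem_filter] at hi
    rw [mem_filter] at hi2
    rcases hi with ⟨_, h1, h2⟩ | ⟨_, h1, h2⟩
    · exact hi2.2 (hX _ h1 _ h2)
    · exact hi2.2 (hY _ h1 _ h2)
  · rw [Finset.disjoint_left]
    intro i hi hi2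
    rw [mem_filter] at hi hi2
    exact (Finset.disjoint_left.1 hXY) hi.2.1 hi2.2.1

end grow

/-! ## The instance -/

/-- the hyperedge of size `q` and the edge of the two hubs -/
def HH (q : ℕ) : Bool → Finset (Fin q ⊕ Bool)
  | true => univ.image Sum.inl
  | false => {Sum.inr true, Sum.inr false}

/-- the requirements -/
def rr (q c : ℕ) : Fin q ⊕ Bool → Fin q ⊕ Bool → ℕ
  | Sum.inl _, Sum.inl _ => 2
  | Sum.inr _, Sum.inr _ => c + 1
  | _, _ => 0

theorem rr_symm (q c : ℕ) (x y : Fin q ⊕ Bool) : rr q c x y = rr q c y x := by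
  rcases x with x | x <;> rcases y with y | y <;> rfl

/-- `X` splits the vertices of the hyperedge -/
def SpV (q : ℕ) (X : Finset (Fin q ⊕ Bool)) : Prop :=
  (∃ i : Fin q, Sum.inl i ∈ X) ∧ ∃ i : Fin q, Sum.inl i ∉ X

/-- `X` splits the hubs -/
def SpH (q : ℕ) (X : Finset (Fin q ⊕ Bool)) : Prop :=
  ¬ ((Sum.inr true : Fin q ⊕ Bool) ∈ X ↔ (Sum.inr false : Fin q ⊕ Bool) ∈ X)

open Classical in
theorem cut_HH (q : ℕ) (X : Finset (Fin q ⊕ Bool)) :
    cut (HH q) X = (if SpV q X then 1 else 0) + (if SpH q X then 1 else 0) := by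
  unfold cut
  rw [Finset.card_filter, Fintype.sum_bool]
  congr 1
  · congr 1
    apply propext
    unfold SpV HH
    simp only [mem_image, mem_univ, true_and]
    constructor
    · rintro ⟨⟨_, ⟨i, rfl⟩, hi⟩, _, ⟨j, rfl⟩, hj⟩
      exact ⟨⟨i, hi⟩, j, hj⟩
    · rintro ⟨⟨i, hi⟩, j, hj⟩
      exact ⟨⟨_, ⟨i, rfl⟩, hi⟩, _, ⟨j, rfl⟩, hj⟩
  · congr 1
    apply propext
    unfold SpH HH
    simp only [mem_insert, mem_singleton, exists_eq_or_imp, exists_eq_left]
    tauto

theorem req_le (q c : ℕ) (X : Finset (Fin q ⊕ Bool)) (n : ℕ) (h1 : SpV q X → 2 ≤ n)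
    (h2 : SpH q X → c + 1 ≤ n) : req (rr q c) X ≤ n := by
  apply REQ.req_le
  rintro (x | x) hx (y | y) hy
  · exact h1 ⟨⟨x, hx⟩, y, hy⟩
  · exact Nat.zero_le _
  · exact Nat.zero_le _
  · apply h2
    unfold SpH
    intro h
    cases x <;> cases y <;> simp_all

theorem le_reqV (q c : ℕ) (X : Finset (Fin q ⊕ Bool)) (h : SpV q X) : 2 ≤ req (rr q c) X := by
  obtain ⟨⟨i, hi⟩, j, hj⟩ := h
  exact REQ.le_req (rr q c) hi hj

theorem le_reqH (q c : ℕ) (X : Finset (Fin q ⊕ Bool)) (h : SpH q X) :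
    c + 1 ≤ req (rr q c) X := by
  by_cases h1 : (Sum.inr true : Fin q ⊕ Bool) ∈ X
  · by_cases h2 : (Sum.inr false : Fin q ⊕ Bool) ∈ X
    · exact absurd ⟨fun _ => h2, fun _ => h1⟩ h
    · exact REQ.le_req (rr q c) h1 h2
  · by_cases h2 : (Sum.inr false : Fin q ⊕ Bool) ∈ X
    · exact REQ.le_req (rr q c) h2 h1
    · exact absurd ⟨fun h' => absurd h' h1, fun h' => absurd h' h2⟩ h

/-- the half-edges -/
def mm (q c : ℕ) : Fin q ⊕ Bool → ℕ
  | Sum.inl _ => 1
  | Sum.inr _ => c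

theorem feas_mm (q c : ℕ) : Feas (HH q) (mm q c) (req (rr q c)) := by
  classical
  intro X
  rw [cut_HH]
  apply req_le
  · intro h
    rw [if_pos h]
    obtain ⟨⟨i, hi⟩, _⟩ := h
    have h1 : mm q c (Sum.inl i) ≤ ∑ v ∈ X, mm q c v := le_mt hi
    have h2 : mm q c (Sum.inl i) = 1 := rfl
    omega
  · intro h
    rw [if_pos h]
    have h1 : c ≤ ∑ v ∈ X, mm q c v := by
      by_cases h1 : (Sum.inr true : Fin q ⊕ Bool) ∈ X
      · exact le_mt (m := mm q c) h1
      · by_cases h2 : (Sum.inr false : Fin q ⊕ Bool) ∈ X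
        · exact le_mt (m := mm q c) h2
        · exact absurd ⟨fun h' => absurd h' h1, fun h' => absurd h' h2⟩ h
    omega

theorem sum_mm (q c : ℕ) : ∑ v, mm q c v = q + 2 * c := by
  rw [Fintype.sum_sum_type]
  simp [mm]

theorem alpha_HH (q c : ℕ) (hq : 2 ≤ q) : alpha (HH q) (rr q c) = q + 2 * c := by
  classical
  apply le_antisymm
  · rw [← sum_mm]
    exact DEG.alpha_le (HH q) (rr q c) (mm q c) (feas_mm q c)
  · have h1 := DEG.le_alpha (HH q) (rr q c)
      (univ.image fun v : Fin q ⊕ Bool => ({v} : Finset (Fin q ⊕ Bool))) (by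
      intro A hA B hB hAB
      obtain ⟨a, _, rfl⟩ := mem_image.1 hA
      obtain ⟨b, _, rfl⟩ := mem_image.1 hB
      rw [Finset.disjoint_singleton]
      rintro rfl
      exact hAB rfl)
    rw [Finset.sum_image (by
      intro a _ b _ hab
      exact Finset.singleton_injective hab)] at h1
    refine le_trans ?_ h1
    rw [← sum_mm]
    apply Finset.sum_le_sum
    rintro (i | b) _
    · have hV : SpV q ({Sum.inl i} : Finset (Fin q ⊕ Bool)) := by
        refine ⟨⟨i, mem_singleton_self _⟩, ?_⟩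
        obtain ⟨j, hj⟩ : ∃ j : Fin q, j ≠ i := by
          have : Nontrivial (Fin q) := Fin.nontrivial_iff_two_le.2 hq
          exact exists_ne i
        exact ⟨j, by simp [hj]⟩
      have hH : ¬ SpH q ({Sum.inl i} : Finset (Fin q ⊕ Bool)) := by
        unfold SpH
        simp
      have h2 := le_reqV q c _ hV
      rw [cut_HH, if_pos hV, if_neg hH]
      have h3 : mm q c (Sum.inl i) = 1 := rfl
      omega
    · have hV : ¬ SpV q ({Sum.inr b} : Finset (Fin q ⊕ Bool)) := by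
        rintro ⟨⟨j, hj⟩, _⟩
        simp at hj
      have hH : SpH q ({Sum.inr b} : Finset (Fin q ⊕ Bool)) := by
        unfold SpH
        cases b <;> simp
      have h2 := le_reqH q c _ hH
      rw [cut_HH, if_neg hV, if_pos hH]
      have h3 : mm q c (Sum.inr b) = c := rfl
      omega

/-- the lower bound -/
theorem low_HH (q c : ℕ) {n : ℕ} (g : Fin n → (Fin q ⊕ Bool) × (Fin q ⊕ Bool))
    (hg : ∀ X, req (rr q c) X ≤ cut (HH q) X + gcut g X) : q + c ≤ n + 1 := by
  classical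
  have hAB : (Sum.inr true : Fin q ⊕ Bool) ≠ Sum.inr false := by simp
  -- the three inequalities
  have I1 : ∀ X, SpV q X → ¬ SpH q X → 1 ≤ gcut g X := by
    intro X hV hH
    have h1 := hg X
    have h2 := le_reqV q c X hV
    rw [cut_HH, if_pos hV, if_neg hH] at h1
    omega
  have I2 : ∀ X, ¬ SpV q X → SpH q X → c ≤ gcut g X := by
    intro X hV hH
    have h1 := hg X
    have h2 := le_reqH q c X hH
    rw [cut_HH, if_neg hV, if_pos hH] at h1
    omega
  have I3 : ∀ X, SpH q X → c ≤ gcut g X + 1 := by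
    intro X hH
    have h1 := hg X
    have h2 := le_reqH q c X hH
    rw [cut_HH, if_pos hH] at h1
    split_ifs at h1 <;> omega
  obtain ⟨X, Y, hX, hY, hXY, hc, h0⟩ := grow2 g _ _ hAB
  have hBX : (Sum.inr false : Fin q ⊕ Bool) ∉ X := fun h => (Finset.disjoint_left.1 hXY) h hY
  have hHX : SpH q X := fun h => hBX (h.1 hX)
  have hHU : ¬ SpH q (X ∪ Y) := by
    unfold SpH
    rw [not_not]
    exact ⟨fun _ => mem_union_right _ hY, fun _ => mem_union_left _ hX⟩
  have hVU : ¬ SpV q (X ∪ Y) := by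
    intro h
    have := I1 _ h hHU
    omega
  have hins := ins_add g X Y X hXY (fun v hv w hw => ⟨fun _ => hw, fun _ => hv⟩)
    (fun v hv w hw => ⟨fun h => absurd hv (Finset.disjoint_left.1 hXY h),
      fun h => absurd hw (Finset.disjoint_left.1 hXY h)⟩)
  by_cases hall : ∀ i : Fin q, (Sum.inl i : Fin q ⊕ Bool) ∈ X ∪ Y
  · have hU : X ∪ Y = univ := by
      rw [Finset.eq_univ_iff_forall]
      rintro (i | b)
      · exact hall i
      · cases b
        · exact mem_union_right _ hY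
        · exact mem_union_left _ hX
    have hcard : X.card + Y.card = q + 2 := by
      rw [← Finset.card_union_of_disjoint hXY, hU, Finset.card_univ, Fintype.card_sum,
        Fintype.card_fin, Fintype.card_bool]
    have h1 := I3 X hHX
    omega
  · push Not at hall
    obtain ⟨i0, hi0⟩ := hall
    have hnone : ∀ i : Fin q, (Sum.inl i : Fin q ⊕ Bool) ∉ X ∪ Y := by
      intro i hi
      exact hVU ⟨⟨i, hi⟩, i0, hi0⟩
    -- edges among the vertices of the hyperedge
    set W : Finset (Fin q ⊕ Bool) := univ.image Sum.inl with hW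
    have hWmem : ∀ x : Fin q ⊕ Bool, x ∈ W ↔ ∃ i, Sum.inl i = x := by
      intro x
      rw [hW, mem_image]
      simp
    have hUmem : ∀ x : Fin q ⊕ Bool, x ∈ X ∪ Y ↔ x ∉ W := by
      rintro (i | b)
      · rw [hWmem]
        constructor
        · intro h
          exact absurd h (hnone i)
        · intro h
          exact absurd ⟨i, rfl⟩ h
      · rw [hWmem]
        constructor
        · rintro _ ⟨i, hi⟩
          simp at hi
        · intro _
          cases b
          · exact mem_union_right _ hY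
          · exact mem_union_left _ hX
    have hgW : ∀ i, ((g i).1 ∈ W ↔ (g i).2 ∈ W) := by
      intro i
      have h1 : ¬ ¬ ((g i).1 ∈ X ∪ Y ↔ (g i).2 ∈ X ∪ Y) := by
        intro h
        unfold gcut at h0
        rw [Finset.card_eq_zero, Finset.filter_eq_empty_iff] at h0
        exact h0 (mem_univ i) h
      rw [not_not, hUmem, hUmem] at h1
      tauto
    have hWcard : W.card = q := by
      rw [hW, Finset.card_image_of_injective _ Sum.inl_injective, Finset.card_univ,
        Fintype.card_fin]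
    have h1 := grow1 g W (Sum.inl i0) ((hWmem _).2 ⟨i0, rfl⟩) (by
      intro Z hZ hZW
      obtain ⟨x, hxW, hxZ⟩ := Finset.exists_of_ssubset hZW
      obtain ⟨j, rfl⟩ := (hWmem x).1 hxW
      have hnr : ∀ b : Bool, (Sum.inr b : Fin q ⊕ Bool) ∉ Z := by
        intro b hb
        obtain ⟨i, hi⟩ := (hWmem _).1 (hZW.1 hb)
        simp at hi
      have h2 := I1 Z ⟨⟨i0, hZ⟩, j, hxZ⟩ (by
        unfold SpH
        rw [not_not]
        exact ⟨fun h => absurd h (hnr _), fun h => absurd h (hnr _)⟩)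
      obtain ⟨i, hi⟩ := Finset.card_pos.1 (lt_of_lt_of_le Nat.zero_lt_one h2)
      simp only [mem_filter, mem_univ, true_and] at hi
      by_cases h3 : (g i).1 ∈ Z
      · have h4 : (g i).2 ∉ Z := fun h => hi ⟨fun _ => h, fun _ => h3⟩
        exact ⟨(g i).2, (hgW i).1 (hZW.1 h3), h4, i, Or.inl ⟨h3, rfl⟩⟩
      · have h4 : (g i).2 ∈ Z := by
          by_contra h
          exact hi ⟨fun h' => absurd h' h3, fun h' => absurd h' h⟩
        exact ⟨(g i).1, (hgW i).2 (hZW.1 h4), h3, i, Or.inr ⟨h4, rfl⟩⟩)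
    have hVX : ¬ SpV q X := by
      rintro ⟨⟨i, hi⟩, _⟩
      exact hnone i (mem_union_left _ hi)
    have h2 := I2 X hVX hHX
    have h3 := ins_add g W ∅ X (Finset.disjoint_empty_right _) (by
      intro v hv w hw
      have hv' : v ∉ X := fun h => (hUmem v).1 (mem_union_left _ h) hv
      have hw' : w ∉ X := fun h => (hUmem w).1 (mem_union_left _ h) hw
      exact ⟨fun h => absurd h hv', fun h => absurd h hw'⟩) (by simp)
    omega

theorem comp_HH (q c : ℕ) (C : Finset (Fin q ⊕ Bool)) (hC : cut (HH q) C = 0) :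
    req (rr q c) C = 0 := by
  classical
  rw [cut_HH] at hC
  apply Nat.eq_zero_of_le_zero
  apply req_le
  · intro h
    rw [if_pos h] at hC
    omega
  · intro h
    rw [if_pos h] at hC
    omega

theorem sharp (k a : ℕ) (hk3 : 3 ≤ k) (ha : 2 ≤ a) :
    ∃ (q c : ℕ), (∀ e, (HH q e).card ≤ k) ∧ alpha (HH q) (rr q c) = a ∧
      (∀ C, IsComponent (HH q) C → req (rr q c) C = 1 →
        ∃ X, X ⊂ C ∧ cut (HH q) X < req (rr q c) X) ∧
      IsLeast (Sizes (HH q) (rr q c)) (min a ((a + k) / 2) - 1) := by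
  classical
  obtain ⟨q, c, hq2, hqk, hqa, hN⟩ : ∃ q c, 2 ≤ q ∧ q ≤ k ∧ q + 2 * c = a ∧
      q + c = min a ((a + k) / 2) := by
    by_cases h1 : a ≤ k
    · exact ⟨a, 0, ha, h1, by omega, by omega⟩
    · by_cases h2 : (a - k) % 2 = 0
      · exact ⟨k, (a - k) / 2, by omega, le_rfl, by omega, by omega⟩
      · exact ⟨k - 1, (a - (k - 1)) / 2, by omega, by omega, by omega, by omega⟩
  have hcard : ∀ e, (HH q e).card ≤ k := by
    rintro (_ | _)
    · exact le_trans Finset.card_le_two (by omega)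
    · unfold HH
      refine le_trans Finset.card_image_le ?_
      simpa using hqk
  have halpha : alpha (HH q) (rr q c) = a := by rw [alpha_HH q c hq2, hqa]
  have hmar : ∀ C, IsComponent (HH q) C → req (rr q c) C = 1 →
        ∃ X, X ⊂ C ∧ cut (HH q) X < req (rr q c) X := by
    intro C hC h1
    rw [comp_HH q c C hC.2.1] at h1
    omega
  refine ⟨q, c, hcard, halpha, hmar, ?_⟩
  obtain ⟨N, hN1, _, hN2⟩ := final k hk3 _ _ (HH q) (rr q c) hcard (rr_symm q c) hmar
  have hlow : q + c ≤ N + 1 := by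
    obtain ⟨g, _, hg⟩ := hN1.1
    rw [feas_iff] at hg
    apply low_HH q c g
    intro X
    rw [← cut_addG]
    exact hg X
  rw [halpha] at hN2
  have : min a ((a + k) / 2) - 1 = N := by omega
  rw [this]
  exact hN1

end Pool.Agent.Work.MP_2183d4_add
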